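import Pool.Agent.Lib.MP_716709_gt.Upper.Hamming

set_option autoImplicit false

namespace Pool.Agent.Lib.MP_716709_gt.Sharp93

open Finset Pool.Agent.Lib.MP_716709_gt Pool.Agent.Lib.MP_716709_gt.Upper

open scoped symmDiff

/-- Hamming representation of a finite subset of `ℓ₁` on `Fin m`. -/
theorem exists_hamming_sharp (M : Finset L1) {η e : ℝ} (hη : 0 < η) (he0 : 0 < e) :
    ∃ (m : ℕ) (H : M → Finset (Fin m)) (h : ℝ), 0 < h ∧ h ≤ η ∧ ∀ x y : M,
      (1 - e) * dist x y ≤ h * (H x ∆ H y).card ∧ h * (H x ∆ H y).card ≤ (1 + e) * dist x y := by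
  classical
  -- truncation of the coordinates
  have hN : ∀ᶠ N : ℕ in Filter.atTop, ∀ q : M × M,
      (1 - e / 2) * dist q.1 q.2 ≤ ∑ i ∈ range N, |(q.1 : L1) i - (q.2 : L1) i| := by
    rw [Filter.eventually_all]
    intro q
    rcases eq_or_ne q.1 q.2 with h | h
    · refine Filter.Eventually.of_forall fun N => ?_
      rw [h, dist_self, mul_zero]
      exact sum_nonneg fun _ _ => abs_nonneg _
    · have hpos : 0 < dist q.1 q.2 := dist_pos.2 h
      have ht := (hasSum_dist (q.1 : L1) q.2).tendsto_sum_nat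
      have : (1 - e / 2) * dist q.1 q.2 < dist (q.1 : L1) q.2 := by
        rw [← Subtype.dist_eq]; nlinarith
      exact (ht.eventually (lt_mem_nhds this)).mono fun N hN => hN.le
  obtain ⟨N, hN⟩ := hN.exists
  -- mesh
  have hh : ∀ᶠ h : ℝ in nhdsWithin 0 (Set.Ioi 0), ∀ q : M × M, q.1 ≠ q.2 →
      N * h ≤ e / 2 * dist q.1 q.2 := by
    rw [Filter.eventually_all]
    intro q
    rcases eq_or_ne q.1 q.2 with h | h
    · exact Filter.Eventually.of_forall fun _ hq => absurd h hq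
    · have hpos : 0 < e / 2 * dist q.1 q.2 := by
        have := dist_pos.2 h
        positivity
      have ht : Filter.Tendsto (fun h : ℝ => N * h) (nhdsWithin 0 (Set.Ioi 0)) (nhds 0) := by
        have : Filter.Tendsto (fun h : ℝ => N * h) (nhds 0) (nhds (N * 0)) :=
          (continuous_const.mul continuous_id).tendsto 0
        rw [mul_zero] at this
        exact this.mono_left nhdsWithin_le_nhds
      exact (ht.eventually (gt_mem_nhds hpos)).mono fun h hh _ => hh.le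
  have hle : ∀ᶠ h : ℝ in nhdsWithin 0 (Set.Ioi 0), h ≤ η :=
    (gt_mem_nhds hη).filter_mono nhdsWithin_le_nhds |>.mono fun h hh => hh.le
  have hpos : ∀ᶠ h : ℝ in nhdsWithin 0 (Set.Ioi 0), 0 < h := self_mem_nhdsWithin
  obtain ⟨h, hh, hle, hpos⟩ := (hh.and (hle.and hpos)).exists
  -- bound of the coordinates
  set B : ℝ := ∑ x : M, ‖(x : L1)‖ with hB
  have hB1 : ∀ (x : M) (i : ℕ), |(x : L1) i| ≤ B := by
    intro x i
    have h1 : ‖(x : L1) i‖ ≤ ‖(x : L1)‖ := lp.norm_apply_le_norm (by simp) _ _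
    have h2 : ‖(x : L1)‖ ≤ B := single_le_sum (f := fun x : M => ‖(x : L1)‖)
      (fun _ _ => norm_nonneg _) (mem_univ x)
    rw [Real.norm_eq_abs] at h1
    exact h1.trans h2
  have hB2 : ∀ (x : M) (i : ℕ), 0 ≤ (x : L1) i + B ∧ (x : L1) i + B ≤ 2 * B := by
    intro x i
    have := abs_le.1 (hB1 x i)
    constructor <;> linarith
  set K : ℕ := ⌊2 * B / h⌋₊ with hK
  set a : M → ℕ → ℕ := fun x i => ⌊((x : L1) i + B) / h⌋₊ with ha
  have haK : ∀ x i, a x i ≤ K := fun x i =>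
    Nat.floor_le_floor (div_le_div_of_nonneg_right (hB2 x i).2 hpos.le)
  set E := Fin N × Fin K
  set H : M → Finset E := fun x => univ.filter fun q : E => (q.2 : ℕ) < a x q.1 with hH
  have hcard : ∀ x y : M, ((H x ∆ H y).card : ℝ) = ∑ i ∈ range N, |(a x i : ℝ) - a y i| := by
    intro x y
    have h1 : H x ∆ H y = univ.filter fun q : E =>
        (((q.2 : ℕ) < a x q.1 ∧ ¬ (q.2 : ℕ) < a y q.1) ∨
          ((q.2 : ℕ) < a y q.1 ∧ ¬ (q.2 : ℕ) < a x q.1)) := by
      ext q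
      simp only [hH, mem_symmDiff, mem_filter, mem_univ, true_and]
    rw [h1, card_filter]
    push_cast
    rw [← univ_product_univ, sum_product]
    rw [← Fin.sum_univ_eq_sum_range (fun i => |(a x i : ℝ) - a y i|) N]
    refine sum_congr rfl fun i _ => ?_
    exact card_xor K (a x i) (a y i) (haK _ _) (haK _ _)
  set e := (Fintype.equivFin E).toEmbedding
  refine ⟨Fintype.card E, fun x => (H x).map e, h, hpos, hle, fun x y => ?_⟩
  have hc2 : (((H x).map e) ∆ ((H y).map e)).card = (H x ∆ H y).card := by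
    rw [show ((H x).map e) ∆ ((H y).map e) = (H x ∆ H y).map e from ?_, card_map]
    ext t
    simp only [mem_symmDiff, mem_map]
    constructor
    · rintro (⟨⟨u, hu, rfl⟩, h2⟩ | ⟨⟨u, hu, rfl⟩, h2⟩)
      · exact ⟨u, Or.inl ⟨hu, fun h => h2 ⟨u, h, rfl⟩⟩, rfl⟩
      · exact ⟨u, Or.inr ⟨hu, fun h => h2 ⟨u, h, rfl⟩⟩, rfl⟩
    · rintro ⟨u, hu | hu, rfl⟩
      · exact Or.inl ⟨⟨u, hu.1, rfl⟩, fun ⟨v, hv, hvu⟩ => hu.2 (e.injective hvu ▸ hv)⟩
      · exact Or.inr ⟨⟨u, hu.1, rfl⟩, fun ⟨v, hv, hvu⟩ => hu.2 (e.injective hvu ▸ hv)⟩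
  rw [hc2, hcard]
  rcases eq_or_ne x y with hxy | hxy
  · subst hxy
    simp
  have hd : 0 < dist x y := dist_pos.2 hxy
  have hNh := hh (x, y) hxy
  have hNx := hN (x, y)
  simp only at hNh hNx
  have hsumle : ∑ i ∈ range N, |(x : L1) i - (y : L1) i| ≤ dist x y := by
    rw [Subtype.dist_eq]
    exact sum_le_hasSum _ (fun _ _ => abs_nonneg _) (hasSum_dist (x : L1) y)
  have hr : ∀ i, |(x : L1) i - (y : L1) i| - h ≤ h * |(a x i : ℝ) - a y i| ∧
      h * |(a x i : ℝ) - a y i| ≤ |(x : L1) i - (y : L1) i| + h := by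
    intro i
    have := round_bounds hpos (hB2 x i).1 (hB2 y i).1
    have e1 : (x : L1) i + B - ((y : L1) i + B) = (x : L1) i - (y : L1) i := by ring
    rw [e1] at this
    exact this
  have s1 : ∑ i ∈ range N, (|(x : L1) i - (y : L1) i| - h)
      ≤ ∑ i ∈ range N, h * |(a x i : ℝ) - a y i| := sum_le_sum fun i _ => (hr i).1
  have s2 : ∑ i ∈ range N, h * |(a x i : ℝ) - a y i|
      ≤ ∑ i ∈ range N, (|(x : L1) i - (y : L1) i| + h) := sum_le_sum fun i _ => (hr i).2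
  rw [← mul_sum] at s1 s2
  rw [sum_sub_distrib, sum_const, card_range, nsmul_eq_mul] at s1
  rw [sum_add_distrib, sum_const, card_range, nsmul_eq_mul] at s2
  constructor <;> linarith

theorem exists_beta_sharp (M : Finset L1) {Δ₀ e : ℝ} (hΔ₀ : 0 < Δ₀) (he0 : 0 < e) (he1 : e < 1) :
    ∃ (m : ℕ) (β : Finset (Fin m) → M → ℝ) (w : ℝ → Finset (Fin m) → ℝ),
      (∀ T x, 0 ≤ β T x ∧ β T x ≤ 1) ∧ ∀ Δ, Δ₀ ≤ Δ → IsProb (w Δ) ∧ ∀ x y : M,
        Ex (w Δ) (fun T => |β T x - β T y|) ≤ dist x y / Δ ∧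
        (1 - 2 * e) * (dist x y / Δ) - 2 * (dist x y / Δ) ^ 2 ≤
          Ex (w Δ) (fun T => |β T x - β T y|) := by
  obtain ⟨m, H, h, h0, hh, hH⟩ := exists_hamming_sharp M (η := Δ₀ / 2) (by linarith) he0
  refine ⟨m, fun T x => par (T ∩ H x).card, fun Δ => bern (h / ((1 + e) * Δ)),
    fun T x => par_mem _, fun Δ hΔ => ?_⟩
  have hΔ0 : 0 < Δ := lt_of_lt_of_le hΔ₀ hΔ
  have hp0 : 0 ≤ h / ((1 + e) * Δ) := by positivity
  have hp1 : h / ((1 + e) * Δ) ≤ 1 / 2 := by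
    rw [div_le_div_iff₀ (by positivity) (by norm_num)]
    nlinarith
  refine ⟨bern_isProb hp0 (by linarith), fun x y => ?_⟩
  rw [Ex_par hp0 (by linarith)]
  obtain ⟨hb1, hb2⟩ := par_bounds hp0 hp1 (H x ∆ H y).card
  obtain ⟨hx1, hx2⟩ := hH x y
  set s : ℝ := ((H x ∆ H y).card : ℝ) with hs
  have hd : 0 ≤ dist x y := dist_nonneg
  have hev : h / ((1 + e) * Δ) * s = (h * s) / ((1 + e) * Δ) := by ring
  have hvu : h / ((1 + e) * Δ) * s ≤ dist x y / Δ := by
    rw [hev, div_le_div_iff₀ (by positivity) hΔ0]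
    nlinarith
  constructor
  · exact hb1.trans hvu
  · refine le_trans ?_ hb2
    set v : ℝ := h / ((1 + e) * Δ) * s with hv
    have hv1 : (1 - 2 * e) * (dist x y / Δ) ≤ v := by
      have h3 : (1 - 2 * e) * (dist x y / Δ) * ((1 + e) * Δ) = (1 - 2 * e) * (1 + e) * dist x y := by
        field_simp
      rw [hev, le_div_iff₀ (by positivity), h3]
      refine le_trans ?_ hx1
      apply mul_le_mul_of_nonneg_right _ hd
      nlinarith
    set u : ℝ := dist x y / Δ with hu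
    have hu0 : 0 ≤ u := by positivity
    have hv0 : 0 ≤ v := by
      rw [hv]; positivity
    rw [le_div_iff₀ (by linarith)]
    have h4 : ((1 - 2 * e) * u - 2 * u ^ 2) ≤ v - 2 * v ^ 2 := by nlinarith
    have h5 : (v - 2 * v ^ 2) * (1 + 2 * v) ≤ v := by
      have : 0 ≤ v ^ 3 := by positivity
      nlinarith
    have h6 : ((1 - 2 * e) * u - 2 * u ^ 2) * (1 + 2 * v) ≤ (v - 2 * v ^ 2) * (1 + 2 * v) :=
      mul_le_mul_of_nonneg_right h4 (by linarith)
    linarith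

end Pool.Agent.Lib.MP_716709_gt.Sharp93
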