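import Pool.Agent.Lib.MP_716709_gt.Upper.Balls

set_option autoImplicit false

namespace Pool.Agent.Lib.MP_716709_gt.Sharp93

open Finset Pool.Agent.Lib.MP_716709_gt.Upper

variable {X : Type*} [Fintype X] [MetricSpace X]

/-- logarithm of the larger of the two ball counts -/
noncomputable def Mx (x y : X) (R : ℝ) : ℝ :=
  Real.log (max ((bl x R).card : ℝ) ((bl y R).card : ℝ))

theorem Mx_mono {x y : X} {r r' : ℝ} (hr : 0 ≤ r) (h : r ≤ r') : Mx x y r ≤ Mx x y r' := by
  unfold Mx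
  apply Real.log_le_log (lt_of_lt_of_le (card_bl_posR x hr) (le_max_left _ _))
  exact max_le_max (card_leR (bl_mono h)) (card_leR (bl_mono h))

theorem Mx_nonneg (x y : X) {r : ℝ} (hr : 0 ≤ r) : 0 ≤ Mx x y r := by
  unfold Mx
  apply Real.log_nonneg
  refine le_trans ?_ (le_max_left _ _)
  exact_mod_cast card_bl_pos (x := x) hr

theorem Mx_le {n : ℕ} (hn : Fintype.card X ≤ n) (x y : X) {r : ℝ} (hr : 0 ≤ r) :
    Mx x y r ≤ Real.log n := by
  unfold Mx
  apply Real.log_le_log (lt_of_lt_of_le (card_bl_posR x hr) (le_max_left _ _))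
  exact max_le (Nat.cast_le.2 ((card_le_univ _).trans hn))
    (Nat.cast_le.2 ((card_le_univ _).trans hn))

theorem tv2 {x y : X} {r : ℝ} (h : dist x y ≤ r) :
    ∑ z, |unif x r z - unif y r z| ≤ 2 * (Mx x y r - Mx x y (r - dist x y)) := by
  classical
  set t := dist x y with ht
  have ht0 : 0 ≤ t := dist_nonneg
  have hr : 0 ≤ r := ht0.trans h
  have hrt : 0 ≤ r - t := by linarith
  set a : ℝ := max ((bl x (r - t)).card : ℝ) ((bl y (r - t)).card : ℝ) with ha
  set b : ℝ := max ((bl x r).card : ℝ) ((bl y r).card : ℝ) with hb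
  have ha0 : 0 < a := lt_of_lt_of_le (card_bl_posR x hrt) (le_max_left _ _)
  have hb0 : 0 < b := lt_of_lt_of_le (card_bl_posR x hr) (le_max_left _ _)
  have h1 : ∀ z, |unif x r z - unif y r z| =
      unif x r z + unif y r z - 2 * min (unif x r z) (unif y r z) := by
    intro z
    rcases le_total (unif x r z) (unif y r z) with h | h
    · rw [min_eq_left h, abs_of_nonpos (by linarith)]; ring
    · rw [min_eq_right h, abs_of_nonneg (by linarith)]; ring
  have h2 : ∑ z, |unif x r z - unif y r z| = 2 - 2 * ∑ z, min (unif x r z) (unif y r z) := by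
    rw [sum_congr rfl (fun z _ => h1 z), sum_sub_distrib, sum_add_distrib, sum_unif x hr,
      sum_unif y hr, ← mul_sum]
    ring
  have h3u : ∀ u : X, dist u x ≤ t → dist u y ≤ t →
      ((bl u (r - t)).card : ℝ) / b ≤ ∑ z, min (unif x r z) (unif y r z) := by
    intro u hux huy
    have h4 : ∑ z ∈ bl u (r - t), 1 / b ≤ ∑ z ∈ bl u (r - t), min (unif x r z) (unif y r z) := by
      refine sum_le_sum fun z hz => ?_
      have hz1 := mem_bl.1 hz
      have hzx : dist x z ≤ r := by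
        have := dist_triangle x u z
        rw [dist_comm x u] at this
        linarith
      have hzy : dist y z ≤ r := by
        have := dist_triangle y u z
        rw [dist_comm y u] at this
        linarith
      have p1 : (0 : ℝ) < (bl x r).card := card_bl_posR x hr
      have p2 : (0 : ℝ) < (bl y r).card := card_bl_posR y hr
      unfold unif
      rw [if_pos hzx, if_pos hzy]
      exact le_min (one_div_le_one_div_of_le p1 (le_max_left _ _))
        (one_div_le_one_div_of_le p2 (le_max_right _ _))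
    rw [sum_const, nsmul_eq_mul] at h4
    have h5 : ∑ z ∈ bl u (r - t), min (unif x r z) (unif y r z) ≤
        ∑ z, min (unif x r z) (unif y r z) :=
      sum_le_sum_of_subset_of_nonneg (subset_univ _) fun z _ _ =>
        le_min (unif_nonneg _ _ _) (unif_nonneg _ _ _)
    calc ((bl u (r - t)).card : ℝ) / b = (bl u (r - t)).card * (1 / b) := by ring
      _ ≤ _ := h4.trans h5
  have h3 : a / b ≤ ∑ z, min (unif x r z) (unif y r z) := by
    have hx := h3u x (by rw [dist_self]; exact ht0) (by rw [← ht])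
    have hy := h3u y (by rw [dist_comm, ← ht]) (by rw [dist_self]; exact ht0)
    rcases le_total ((bl x (r - t)).card : ℝ) ((bl y (r - t)).card : ℝ) with h | h
    · rw [ha, max_eq_right h]; exact hy
    · rw [ha, max_eq_left h]; exact hx
  have h6 : 1 - a / b ≤ Mx x y r - Mx x y (r - t) := by
    have h7 : Real.log (a / b) ≤ a / b - 1 := Real.log_le_sub_one_of_pos (by positivity)
    have h8 : Real.log (a / b) = Mx x y (r - t) - Mx x y r := by
      rw [Real.log_div ha0.ne' hb0.ne']; rfl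
    linarith
  rw [h2]
  linarith

/-- the normalisation of the weights `1/m` -/
noncomputable def Hs (i : ℕ) : ℝ := ∑ m ∈ Ico (2 ^ i : ℕ) (2 ^ (i + 1)), 1 / (m : ℝ)

theorem Hs_ge (i : ℕ) : Real.log 2 ≤ Hs i := by
  have h1 : ∀ b a : ℕ, 1 ≤ a → Real.log (((a + b : ℕ) : ℝ)) - Real.log (a : ℝ) ≤
      ∑ m ∈ Ico a (a + b), 1 / (m : ℝ) := by
    intro b a ha
    induction b with
    | zero => simp
    | succ b ih =>
      rw [← add_assoc, sum_Ico_succ_top (by omega)]
      have hpos : (0 : ℝ) < ((a + b : ℕ) : ℝ) := by exact_mod_cast (by omega : 0 < a + b)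
      have h2 : Real.log (((a + b + 1 : ℕ) : ℝ)) - Real.log (((a + b : ℕ) : ℝ)) ≤
          1 / ((a + b : ℕ) : ℝ) := by
        rw [← Real.log_div (by positivity) hpos.ne']
        have h3 := Real.log_le_sub_one_of_pos
          (show (0 : ℝ) < ((a + b + 1 : ℕ) : ℝ) / ((a + b : ℕ) : ℝ) by positivity)
        have h4 : ((a + b + 1 : ℕ) : ℝ) / ((a + b : ℕ) : ℝ) - 1 = 1 / ((a + b : ℕ) : ℝ) := by
          push_cast at hpos ⊢
          field_simp
          ring
        linarith
      linarith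
  have h5 := h1 (2 ^ i) (2 ^ i) Nat.one_le_two_pow
  have h6 : 2 ^ i + 2 ^ i = 2 ^ (i + 1) := by ring
  rw [h6] at h5
  have h7 : Real.log (((2 ^ (i + 1) : ℕ) : ℝ)) - Real.log (((2 ^ i : ℕ) : ℝ)) = Real.log 2 := by
    push_cast
    rw [Real.log_pow, Real.log_pow]
    push_cast
    ring
  rw [h7] at h5
  exact h5

theorem Hs_pos (i : ℕ) : 0 < Hs i := lt_of_lt_of_le (Real.log_pos (by norm_num)) (Hs_ge i)

/-- averaging kernel of the window `i`: radii `h m`, `2^i ≤ m < 2^(i+1)`, with weights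
proportional to `1/m` -/
noncomputable def kr (h : ℝ) (i : ℕ) (x z : X) : ℝ :=
  (1 / Hs i) * ∑ m ∈ Ico (2 ^ i : ℕ) (2 ^ (i + 1)), (1 / (m : ℝ)) * unif x (h * m) z

theorem kr_nonneg (h : ℝ) (i : ℕ) (x z : X) : 0 ≤ kr h i x z := by
  unfold kr
  have := Hs_pos i
  exact mul_nonneg (by positivity) (sum_nonneg fun m _ =>
    mul_nonneg (by positivity) (unif_nonneg _ _ _))

theorem sum_kr {h : ℝ} (hh : 0 < h) (i : ℕ) (x : X) : ∑ z, kr h i x z = 1 := by
  unfold kr
  rw [← mul_sum, sum_comm]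
  have h1 : ∀ m ∈ Ico (2 ^ i : ℕ) (2 ^ (i + 1)), ∑ z, (1 / (m : ℝ)) * unif x (h * m) z =
      1 / (m : ℝ) := by
    intro m _
    rw [← mul_sum, sum_unif x (by positivity), mul_one]
  rw [sum_congr rfl h1]
  have := Hs_pos i
  change 1 / Hs i * Hs i = 1
  field_simp

theorem kr_support {h : ℝ} (hh : 0 < h) {i : ℕ} {x z : X} (hd : 2 * (h * 2 ^ i) ≤ dist x z) :
    kr h i x z = 0 := by
  unfold kr
  rw [sum_eq_zero, mul_zero]
  intro m hm
  have hm' : m < 2 ^ (i + 1) := (mem_Ico.1 hm).2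
  have hm2 : (m : ℝ) < 2 ^ (i + 1) := by exact_mod_cast hm'
  unfold unif
  rw [if_neg, mul_zero]
  push Not
  refine lt_of_lt_of_le ?_ hd
  have : h * (m : ℝ) < h * 2 ^ (i + 1) := mul_lt_mul_of_pos_left hm2 hh
  calc h * (m : ℝ) < h * 2 ^ (i + 1) := this
    _ = 2 * (h * 2 ^ i) := by rw [pow_succ]; ring

/-- growth in the window `i` -/
noncomputable def Gw (h : ℝ) (q : ℕ) (x y : X) (i : ℕ) : ℝ :=
  ∑ m ∈ Ico (2 ^ i : ℕ) (2 ^ (i + 1)), (Mx x y (h * m) - Mx x y (h * ((m - q : ℕ) : ℝ)))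

theorem Gw_term_nonneg {h : ℝ} (hh : 0 < h) (q : ℕ) (x y : X) (m : ℕ) :
    0 ≤ Mx x y (h * m) - Mx x y (h * ((m - q : ℕ) : ℝ)) := by
  have h1 : ((m - q : ℕ) : ℝ) ≤ m := by exact_mod_cast Nat.sub_le m q
  have := Mx_mono (x := x) (y := y) (r := h * ((m - q : ℕ) : ℝ)) (r' := h * m) (by positivity)
    (mul_le_mul_of_nonneg_left h1 hh.le)
  linarith

theorem Gw_nonneg {h : ℝ} (hh : 0 < h) (q : ℕ) (x y : X) (i : ℕ) : 0 ≤ Gw h q x y i :=
  sum_nonneg fun m _ => Gw_term_nonneg hh q x y m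

/-- total variation for one radius -/
theorem tv_step {h : ℝ} (hh : 0 < h) {q m : ℕ} {x y : X} (hq : dist x y ≤ q * h)
    (hm : q ≤ m) : ∑ z, |unif x (h * m) z - unif y (h * m) z| ≤
      2 * (Mx x y (h * m) - Mx x y (h * ((m - q : ℕ) : ℝ))) := by
  have hm' : (q : ℝ) ≤ m := by exact_mod_cast hm
  have h1 : dist x y ≤ h * m := by
    calc dist x y ≤ q * h := hq
      _ ≤ m * h := mul_le_mul_of_nonneg_right hm' hh.le
      _ = h * m := by ring
  refine (tv2 h1).trans ?_
  have h2 : h * ((m - q : ℕ) : ℝ) ≤ h * m - dist x y := by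
    rw [Nat.cast_sub hm]
    have : h * ((m : ℝ) - q) = h * m - q * h := by ring
    rw [this]; linarith
  have h3 := Mx_mono (x := x) (y := y) (r := h * ((m - q : ℕ) : ℝ)) (by positivity) h2
  linarith

/-- total variation of the kernels -/
theorem kr_tv {h : ℝ} (hh : 0 < h) {q i : ℕ} {x y : X} (hq : dist x y ≤ q * h)
    (hqi : q ≤ 2 ^ i) :
    (h * 2 ^ i) * ∑ z, |kr h i x z - kr h i y z| ≤ 2 * h / Real.log 2 * Gw h q x y i := by
  have hH := Hs_pos i
  have hl2 : 0 < Real.log 2 := Real.log_pos (by norm_num)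
  have h1 : ∀ z, |kr h i x z - kr h i y z| ≤
      (1 / Hs i) * ∑ m ∈ Ico (2 ^ i : ℕ) (2 ^ (i + 1)),
        (1 / (m : ℝ)) * |unif x (h * m) z - unif y (h * m) z| := by
    intro z
    unfold kr
    rw [← mul_sub, ← sum_sub_distrib, abs_mul, abs_of_nonneg (by positivity : (0:ℝ) ≤ 1 / Hs i)]
    apply mul_le_mul_of_nonneg_left _ (by positivity)
    refine (abs_sum_le_sum_abs _ _).trans (le_of_eq (sum_congr rfl fun m _ => ?_))
    rw [← mul_sub, abs_mul, abs_of_nonneg (by positivity : (0:ℝ) ≤ 1 / (m : ℝ))]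
  have h2 : ∑ z, |kr h i x z - kr h i y z| ≤ (1 / Hs i) * ∑ m ∈ Ico (2 ^ i : ℕ) (2 ^ (i + 1)),
        (1 / (m : ℝ)) * ∑ z, |unif x (h * m) z - unif y (h * m) z| := by
    refine (sum_le_sum fun z _ => h1 z).trans (le_of_eq ?_)
    rw [← mul_sum, sum_comm]
    congr 1
    exact sum_congr rfl fun m _ => by rw [mul_sum]
  have h3 : (h * 2 ^ i) * ∑ z, |kr h i x z - kr h i y z| ≤ (1 / Hs i) *
      ∑ m ∈ Ico (2 ^ i : ℕ) (2 ^ (i + 1)), (2 * h) * (Mx x y (h * m) - Mx x y (h * ((m - q : ℕ) : ℝ))) := by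
    calc (h * 2 ^ i) * ∑ z, |kr h i x z - kr h i y z|
        ≤ (h * 2 ^ i) * ((1 / Hs i) * ∑ m ∈ Ico (2 ^ i : ℕ) (2 ^ (i + 1)),
          (1 / (m : ℝ)) * ∑ z, |unif x (h * m) z - unif y (h * m) z|) :=
          mul_le_mul_of_nonneg_left h2 (by positivity)
      _ = (1 / Hs i) * ∑ m ∈ Ico (2 ^ i : ℕ) (2 ^ (i + 1)),
          (h * 2 ^ i) * ((1 / (m : ℝ)) * ∑ z, |unif x (h * m) z - unif y (h * m) z|) := by
          rw [← mul_sum]; ring
      _ ≤ _ := by
          apply mul_le_mul_of_nonneg_left _ (by positivity)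
          refine sum_le_sum fun m hm => ?_
          have hm1 := (mem_Ico.1 hm).1
          have hm0 : 0 < m := lt_of_lt_of_le (by positivity) hm1
          have hmR : (0 : ℝ) < m := by exact_mod_cast hm0
          have hm2 : (2 : ℝ) ^ i ≤ m := by exact_mod_cast hm1
          have hs := tv_step hh (x := x) (y := y) hq (hqi.trans hm1)
          have h4 : (h * 2 ^ i) * ((1 / (m : ℝ)) * ∑ z, |unif x (h * m) z - unif y (h * m) z|) =
              (h * (2 ^ i / m)) * ∑ z, |unif x (h * m) z - unif y (h * m) z| := by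
            field_simp
          rw [h4]
          have h5 : (2 : ℝ) ^ i / m ≤ 1 := (div_le_one hmR).2 hm2
          calc (h * (2 ^ i / m)) * ∑ z, |unif x (h * m) z - unif y (h * m) z|
              ≤ h * ∑ z, |unif x (h * m) z - unif y (h * m) z| := by
                apply mul_le_mul_of_nonneg_right _ (sum_nonneg fun z _ => abs_nonneg _)
                exact mul_le_of_le_one_right hh.le h5
            _ ≤ h * (2 * (Mx x y (h * m) - Mx x y (h * ((m - q : ℕ) : ℝ)))) :=
                mul_le_mul_of_nonneg_left hs hh.le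
            _ = _ := by ring
  refine h3.trans ?_
  rw [← mul_sum]
  have hG := Gw_nonneg hh q x y i
  calc 1 / Hs i * (2 * h * Gw h q x y i) ≤ 1 / Real.log 2 * (2 * h * Gw h q x y i) := by
        apply mul_le_mul_of_nonneg_right _ (by positivity)
        exact one_div_le_one_div_of_le hl2 (Hs_ge i)
    _ = _ := by ring

/-- the growth of all windows together -/
theorem sum_Gw {n : ℕ} (hX : Fintype.card X ≤ n) {h : ℝ} (hh : 0 < h) {q : ℕ} (x y : X)
    {i₁ : ℕ} (hq : q ≤ 2 ^ i₁) (N : ℕ) :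
    ∑ i ∈ range N, (if i₁ ≤ i then Gw h q x y i else 0) ≤ q * Real.log n := by
  set F : ℕ → ℝ := fun m => Mx x y (h * m) with hF
  have hF0 : ∀ m, 0 ≤ F m := fun m => Mx_nonneg x y (by positivity)
  have hF1 : ∀ m, F m ≤ Real.log n := fun m => Mx_le hX x y (by positivity)
  have hterm : ∀ m : ℕ, 0 ≤ F m - F (m - q) := fun m => Gw_term_nonneg hh q x y m
  have h1 : ∀ N, ∑ i ∈ range N, (if i₁ ≤ i then Gw h q x y i else 0) ≤
      ∑ m ∈ Ico (2 ^ i₁) (2 ^ (max i₁ N)), (F m - F (m - q)) := by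
    intro N
    induction N with
    | zero => simp
    | succ N ih =>
      rw [sum_range_succ]
      by_cases hc : i₁ ≤ N
      · rw [if_pos hc]
        rw [max_eq_right hc] at ih
        rw [max_eq_right (by omega : i₁ ≤ N + 1)]
        have h2 : ∑ m ∈ Ico (2 ^ i₁) (2 ^ (N + 1)), (F m - F (m - q)) =
            ∑ m ∈ Ico (2 ^ i₁) (2 ^ N), (F m - F (m - q)) +
            ∑ m ∈ Ico (2 ^ N) (2 ^ (N + 1)), (F m - F (m - q)) := by
          rw [sum_Ico_consecutive]
          · exact Nat.pow_le_pow_right (by norm_num) hc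
          · exact Nat.pow_le_pow_right (by norm_num) (by omega)
        rw [h2]
        exact add_le_add ih (le_of_eq rfl)
      · rw [if_neg hc, add_zero]
        rw [max_eq_left (by omega : N ≤ i₁)] at ih
        rw [max_eq_left (by omega : N + 1 ≤ i₁)]
        exact ih
  refine (h1 N).trans ?_
  set b := 2 ^ (max i₁ N) with hb
  have h2 : ∑ m ∈ Ico (2 ^ i₁) b, (F m - F (m - q)) ≤ ∑ m ∈ Ico q (b + q), (F m - F (m - q)) := by
    apply sum_le_sum_of_subset_of_nonneg
    · intro m hm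
      rw [mem_Ico] at hm ⊢
      omega
    · intro m _ _; exact hterm m
  refine h2.trans ?_
  have h3 : ∑ m ∈ Ico q (b + q), (F m - F (m - q)) = ∑ m ∈ range b, (F (m + q) - F m) := by
    rw [sum_Ico_eq_sum_range, Nat.add_sub_cancel]
    refine sum_congr rfl fun m _ => ?_
    rw [add_comm q m, Nat.add_sub_cancel]
  rw [h3, shift_sum]
  have h4 : ∀ m ∈ range q, F (m + b) - F m ≤ Real.log n := fun m _ => by
    have := hF0 m
    have := hF1 (m + b)
    linarith
  refine (sum_le_sum h4).trans ?_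
  rw [sum_const, card_range, nsmul_eq_mul]

end Pool.Agent.Lib.MP_716709_gt.Sharp93
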