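import Pool.Agent.Lib.MP_716709_gt.Upper.Sampling

set_option autoImplicit false

namespace Pool.Agent.Lib.MP_716709_gt.Sharp93

open Finset Pool.Agent.Lib.MP_716709_gt.Upper

section signs
variable {N : ℕ} {Ω : Type*} [Fintype Ω]

/-- the sign of a bit -/
def sg (b : Bool) : ℝ := if b then 1 else -1

theorem abs_sg (b : Bool) : |sg b| = 1 := by
  unfold sg
  cases b <;> simp

theorem sg_not (b : Bool) : sg (!b) = - sg b := by
  unfold sg
  cases b <;> simp

/-- weights of a pair (window randomness, fair sign) -/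
noncomputable def sw (w : Ω → ℝ) : Ω × Bool → ℝ := fun a => w a.1 / 2

theorem Ex_sw_fst (w f : Ω → ℝ) : Ex (sw w) (fun a => f a.1) = Ex w f := by
  unfold Ex sw
  rw [Fintype.sum_prod_type]
  refine sum_congr rfl fun x _ => ?_
  simp only [Fintype.sum_bool]
  ring

theorem isProb_sw {w : Ω → ℝ} (hw : IsProb w) : IsProb (sw w) where
  nonneg a := by
    unfold sw
    have := hw.nonneg a.1
    positivity
  sum_one := by
    have h := Ex_sw_fst w (fun _ => 1)
    rw [Ex_const hw 1] at h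
    unfold Ex at h
    simpa using h

theorem signed_upper {w : Fin N → Ω → ℝ} (hw : ∀ i, IsProb (w i)) (g : Fin N → Ω → ℝ)
    (S : Finset (Fin N)) :
    Ex (prodW (fun i => sw (w i))) (fun ω => |∑ i ∈ S, sg (ω i).2 * g i (ω i).1|) ≤
      ∑ i ∈ S, Ex (w i) (fun T => |g i T|) := by
  have hp : ∀ i, IsProb (sw (w i)) := fun i => isProb_sw (hw i)
  have h1 : ∀ ω : Fin N → Ω × Bool, |∑ i ∈ S, sg (ω i).2 * g i (ω i).1| ≤
      ∑ i ∈ S, |g i (ω i).1| := by
    intro ω
    refine (abs_sum_le_sum_abs _ _).trans (le_of_eq ?_)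
    refine sum_congr rfl fun l _ => ?_
    rw [abs_mul, abs_sg, one_mul]
  refine (Ex_mono (isProb_prodW hp) h1).trans (le_of_eq ?_)
  rw [Ex_sum]
  refine sum_congr rfl fun i _ => ?_
  rw [Ex_prodW_one hp i (fun a => |g i a.1|)]
  exact Ex_sw_fst (w i) (fun T => |g i T|)

/-- flip the sign at `j` -/
def flipAt (j : Fin N) (ω : Fin N → Ω × Bool) : Fin N → Ω × Bool :=
  Function.update ω j ((ω j).1, !(ω j).2)

omit [Fintype Ω] in
theorem flipAt_invol (j : Fin N) : Function.Involutive (flipAt (Ω := Ω) j) := by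
  intro ω
  funext i
  unfold flipAt
  by_cases h : i = j
  · subst h; simp
  · simp [h]

omit [Fintype Ω] in
theorem flipAt_fst (j : Fin N) (ω : Fin N → Ω × Bool) (i : Fin N) :
    (flipAt j ω i).1 = (ω i).1 := by
  unfold flipAt
  by_cases h : i = j
  · subst h; simp
  · simp [h]

omit [Fintype Ω] in
theorem flipAt_snd (j : Fin N) (ω : Fin N → Ω × Bool) (i : Fin N) :
    sg (flipAt j ω i).2 = sg (ω i).2 - if i = j then 2 * sg (ω j).2 else 0 := by
  unfold flipAt
  by_cases h : i = j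
  · subst h
    rw [Function.update_self, if_pos rfl, sg_not]; ring
  · rw [Function.update_of_ne h, if_neg h]; ring

theorem signed_lower {w : Fin N → Ω → ℝ} (hw : ∀ i, IsProb (w i)) (g : Fin N → Ω → ℝ)
    (S : Finset (Fin N)) {j : Fin N} (hj : j ∈ S) :
    Ex (w j) (fun T => |g j T|) ≤
      Ex (prodW (fun i => sw (w i))) (fun ω => |∑ i ∈ S, sg (ω i).2 * g i (ω i).1|) := by
  have hp : ∀ i, IsProb (sw (w i)) := fun i => isProb_sw (hw i)
  set A : (Fin N → Ω × Bool) → ℝ := fun ω => ∑ i ∈ S, sg (ω i).2 * g i (ω i).1 with hA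
  have hP : ∀ ω, prodW (fun i => sw (w i)) (flipAt j ω) = prodW (fun i => sw (w i)) ω := by
    intro ω
    unfold prodW
    refine prod_congr rfl fun i _ => ?_
    change w i (flipAt j ω i).1 / 2 = w i (ω i).1 / 2
    rw [flipAt_fst]
  have hAf : ∀ ω, A (flipAt j ω) = A ω - 2 * (sg (ω j).2 * g j (ω j).1) := by
    intro ω
    have h1 : ∀ i ∈ S, sg (flipAt j ω i).2 * g i (flipAt j ω i).1 =
        sg (ω i).2 * g i (ω i).1 - if i = j then 2 * (sg (ω j).2 * g j (ω j).1) else 0 := by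
      intro i _
      rw [flipAt_fst, flipAt_snd]
      by_cases h : i = j
      · subst h
        simp only [if_true]; ring
      · rw [if_neg h, if_neg h]; ring
    rw [hA]
    simp only
    rw [sum_congr rfl h1, sum_sub_distrib, sum_ite_eq' S j, if_pos hj]
  have hE : Ex (prodW (fun i => sw (w i))) (fun ω => |A (flipAt j ω)|) =
      Ex (prodW (fun i => sw (w i))) (fun ω => |A ω|) := by
    unfold Ex
    rw [← Equiv.sum_comp (flipAt_invol (Ω := Ω) j).toPerm
      (fun ω => prodW (fun i => sw (w i)) ω * |A ω|)]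
    refine sum_congr rfl fun ω _ => ?_
    rw [Function.Involutive.coe_toPerm, hP ω]
  have h2 : ∀ ω : Fin N → Ω × Bool, 2 * |g j (ω j).1| ≤ |A ω| + |A (flipAt j ω)| := by
    intro ω
    have h3 := abs_sub (A ω) (A (flipAt j ω))
    have h4 : A ω - A (flipAt j ω) = 2 * (sg (ω j).2 * g j (ω j).1) := by rw [hAf]; ring
    rw [h4, abs_mul, abs_mul, abs_sg, one_mul, abs_of_nonneg (by norm_num : (0:ℝ) ≤ 2)] at h3
    exact h3
  have h5 := Ex_mono (isProb_prodW hp) h2
  rw [Ex_add, hE, Ex_mul_left, Ex_prodW_one hp j (fun a => |g j a.1|),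
    Ex_sw_fst (w j) (fun T => |g j T|)] at h5
  linarith

end signs

section classes
variable {Ω : Type*} [Fintype Ω]

/-- uniform choice of a class, independent of the rest -/
noncomputable def mixW (J : ℕ) (P : Ω → ℝ) : Fin J × Ω → ℝ := fun a => P a.2 / J

theorem Ex_mixW (J : ℕ) (P : Ω → ℝ) (F : Fin J × Ω → ℝ) :
    Ex (mixW J P) F = (1 / (J : ℝ)) * ∑ c : Fin J, Ex P (fun ω => F (c, ω)) := by
  unfold Ex mixW
  rw [Fintype.sum_prod_type, mul_sum]
  refine sum_congr rfl fun c _ => ?_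
  rw [mul_sum]
  exact sum_congr rfl fun ω _ => by ring

theorem isProb_mixW {J : ℕ} (hJ : 0 < J) {P : Ω → ℝ} (hP : IsProb P) : IsProb (mixW J P) where
  nonneg a := by
    unfold mixW
    have := hP.nonneg a.2
    positivity
  sum_one := by
    have hJR : (0 : ℝ) < J := by exact_mod_cast hJ
    have h := Ex_mixW J P (fun _ => 1)
    rw [Ex_const hP 1, sum_const, card_univ, Fintype.card_fin, nsmul_eq_mul, mul_one,
      one_div_mul_cancel hJR.ne'] at h
    unfold Ex at h
    simpa using h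

/-- the class of an index -/
def cls {J : ℕ} (hJ : 0 < J) (i : ℕ) : Fin J := ⟨i % J, Nat.mod_lt _ hJ⟩

theorem cls_inj {J : ℕ} (hJ : 0 < J) {it i k : ℕ} (hi : i ∈ Ioc (it - J) it)
    (hk : k ∈ Ioc (it - J) it) (h : cls hJ i = cls hJ k) : i = k := by
  rw [mem_Ioc] at hi hk
  have h1 : i % J = k % J := congrArg Fin.val h
  have h2 : i ≡ k [MOD J] := h1
  apply h2.eq_of_abs_lt
  rw [abs_lt]
  constructor <;> omega

theorem class_upper {N J : ℕ} (hJ : 0 < J) (e : Fin N → ℝ) (E : Fin J → ℝ)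
    (h : ∀ c, E c ≤ ∑ i ∈ univ.filter (fun i : Fin N => cls hJ i = c), e i) :
    ∑ c, E c ≤ ∑ i, e i := by
  refine (sum_le_sum fun c _ => h c).trans (le_of_eq ?_)
  exact sum_fiberwise univ (fun i : Fin N => cls hJ i) e

theorem class_lower {N J it : ℕ} (hJ : 0 < J) (e : Fin N → ℝ) (E : Fin J → ℝ)
    (hE : ∀ c, 0 ≤ E c) (h : ∀ i : Fin N, e i ≤ E (cls hJ i)) :
    ∑ i ∈ univ.filter (fun i : Fin N => (i : ℕ) ∈ Ioc (it - J) it), e i ≤ ∑ c, E c := by
  classical
  set O := univ.filter (fun i : Fin N => (i : ℕ) ∈ Ioc (it - J) it) with hO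
  rw [← sum_fiberwise O (fun i : Fin N => cls hJ i) e]
  refine sum_le_sum fun c _ => ?_
  rcases (O.filter (fun i : Fin N => cls hJ i = c)).eq_empty_or_nonempty with h0 | ⟨i, hi⟩
  · rw [h0, sum_empty]; exact hE c
  · have h1 : O.filter (fun i : Fin N => cls hJ i = c) = {i} := by
      rw [eq_singleton_iff_unique_mem]
      refine ⟨hi, fun k hk => ?_⟩
      rw [mem_filter, hO, mem_filter] at hi hk
      apply Fin.ext
      exact cls_inj hJ hk.1.2 hi.1.2 (hk.2.trans hi.2.symm)
    rw [h1, sum_singleton]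
    have h2 := (mem_filter.1 hi).2
    rw [← h2]
    exact h i

end classes

end Pool.Agent.Lib.MP_716709_gt.Sharp93
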