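import Mathlib

set_option autoImplicit false

namespace Pool.Agent.Lib.MP_716709_gt.Sharp93

open Finset

theorem geom2 {σ : ℝ} (hσ : 0 < σ) (m : ℕ) : ∑ i ∈ range m, σ * 2 ^ i ≤ σ * 2 ^ m := by
  induction m with
  | zero => simp; exact hσ.le
  | succ m ih =>
    rw [sum_range_succ, pow_succ]
    linarith

theorem sum_ite_le (N m : ℕ) (f : ℕ → ℝ) (hf : ∀ i, 0 ≤ f i) (P : ℕ → Prop) [DecidablePred P]
    (hP : ∀ i, P i → i < m) : ∑ i ∈ range N, (if P i then f i else 0) ≤ ∑ i ∈ range m, f i := by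
  rw [← sum_filter]
  apply sum_le_sum_of_subset_of_nonneg
  · intro i hi
    exact mem_range.2 (hP i (mem_filter.1 hi).2)
  · intro i _ _; exact hf i

theorem exists_scale2 {σ t : ℝ} (hσ : 0 < σ) {J N : ℕ} (h1 : σ * 2 ^ J ≤ t) (h2 : t < σ * 2 ^ N) :
    ∃ it : ℕ, J ≤ it ∧ it < N ∧ σ * 2 ^ it ≤ t ∧ t < σ * 2 ^ (it + 1) := by
  have h8 : (1 : ℝ) < 2 := by norm_num
  have hone : (1 : ℝ) ≤ t / σ := by
    rw [le_div_iff₀ hσ]
    have : (1 : ℝ) ≤ 2 ^ J := one_le_pow₀ h8.le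
    nlinarith
  obtain ⟨it, hit1, hit2⟩ := exists_nat_pow_near hone h8
  rw [le_div_iff₀ hσ] at hit1
  rw [div_lt_iff₀ hσ] at hit2
  refine ⟨it, ?_, ?_, by linarith, by linarith⟩
  · have h3 : σ * (2 : ℝ) ^ J < σ * 2 ^ (it + 1) := by linarith
    have h4 : (2 : ℝ) ^ J < 2 ^ (it + 1) := lt_of_mul_lt_mul_left h3 hσ.le
    have := (pow_lt_pow_iff_right₀ h8).1 h4
    omega
  · have h3 : σ * (2 : ℝ) ^ it < σ * 2 ^ N := by linarith
    have h4 : (2 : ℝ) ^ it < 2 ^ N := lt_of_mul_lt_mul_left h3 hσ.le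
    exact (pow_lt_pow_iff_right₀ h8).1 h4

section scales
variable {J N it L₀ : ℕ} {σ t A : ℝ}

theorem low_sum2 (hσ : 0 < σ) (h1 : σ * 2 ^ it ≤ t) :
    ∑ i ∈ range N, (if i ≤ it + L₀ then σ * 2 ^ i else 0) ≤ 2 * 2 ^ L₀ * t := by
  have hs : ∀ i : ℕ, (0 : ℝ) ≤ σ * 2 ^ i := fun i => by positivity
  refine (sum_ite_le N (it + L₀ + 1) (fun i => σ * 2 ^ i) hs _ (fun i hi => by omega)).trans ?_
  refine (geom2 hσ (it + L₀ + 1)).trans ?_
  have h3 : σ * (2 : ℝ) ^ (it + L₀ + 1) = 2 * 2 ^ L₀ * (σ * 2 ^ it) := by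
    rw [pow_add, pow_add]; ring
  rw [h3]
  exact mul_le_mul_of_nonneg_left h1 (by positivity)

theorem sum_upper2 (hσ : 0 < σ) (hJ : J ≤ it) (h1 : σ * 2 ^ it ≤ t)
    (G e : ℕ → ℝ) (hG : ∀ i, 0 ≤ G i) (hGs : ∑ i ∈ range N, G i ≤ A)
    (he1 : ∀ i < N, e i ≤ 2 ^ J * (σ * 2 ^ i))
    (he3 : ∀ i < N, it + 1 + L₀ ≤ i → e i ≤ G i)
    (he4 : ∀ i < N, e i ≤ t + 4 * (σ * 2 ^ i)) :
    ∑ i ∈ range N, e i ≤ A + (J + L₀ + 8 * 2 ^ L₀ + 2) * t := by
  have hs : ∀ i : ℕ, (0 : ℝ) < σ * 2 ^ i := fun i => by positivity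
  have ht : 0 < t := (hs it).trans_le h1
  have key : ∀ i ∈ range N, e i ≤ G i + (if it + 1 ≤ i + J ∧ i ≤ it + L₀ then t else 0) +
      4 * (if i ≤ it + L₀ then σ * 2 ^ i else 0) +
      (if i + J ≤ it then 2 ^ J * (σ * 2 ^ i) else 0) := by
    intro i hi
    have hi' := mem_range.1 hi
    have g0 := hG i
    have hsi := hs i
    have hsi' : 0 < 2 ^ J * (σ * 2 ^ i) := by positivity
    by_cases c1 : it + 1 + L₀ ≤ i
    · have h4 := he3 i hi' c1
      have n1 : ¬ (it + 1 ≤ i + J ∧ i ≤ it + L₀) := by omega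
      have n2 : ¬ (i ≤ it + L₀) := by omega
      have n3 : ¬ (i + J ≤ it) := by omega
      rw [if_neg n1, if_neg n2, if_neg n3]
      linarith
    · by_cases c2 : i + J ≤ it
      · have h4 := he1 i hi'
        have n1 : ¬ (it + 1 ≤ i + J ∧ i ≤ it + L₀) := by omega
        have n2 : (i ≤ it + L₀) := by omega
        rw [if_neg n1, if_pos n2, if_pos c2]
        linarith
      · have h4 := he4 i hi'
        have n1 : (it + 1 ≤ i + J ∧ i ≤ it + L₀) := by omega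
        have n2 : (i ≤ it + L₀) := by omega
        rw [if_pos n1, if_pos n2, if_neg c2]
        linarith
  refine (sum_le_sum key).trans ?_
  rw [sum_add_distrib, sum_add_distrib, sum_add_distrib, ← mul_sum]
  have s2 : ∑ i ∈ range N, (if it + 1 ≤ i + J ∧ i ≤ it + L₀ then t else 0) ≤ (J + L₀) * t := by
    rw [← sum_filter, sum_const, nsmul_eq_mul]
    apply mul_le_mul_of_nonneg_right _ ht.le
    have : (filter (fun i => it + 1 ≤ i + J ∧ i ≤ it + L₀) (range N)).card ≤ J + L₀ := by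
      refine (card_le_card (t := Icc (it + 1 - J) (it + L₀)) ?_).trans ?_
      · intro i hi
        have := (mem_filter.1 hi).2
        rw [mem_Icc]; omega
      · rw [Nat.card_Icc]; omega
    exact_mod_cast this
  have s3 : ∑ i ∈ range N, (if i ≤ it + L₀ then σ * 2 ^ i else 0) ≤ 2 * 2 ^ L₀ * t :=
    low_sum2 hσ h1
  have s4 : ∑ i ∈ range N, (if i + J ≤ it then 2 ^ J * (σ * 2 ^ i) else 0) ≤ 2 * t := by
    refine (sum_ite_le N (it - J + 1) (fun i => 2 ^ J * (σ * 2 ^ i))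
      (fun i => by positivity) _ (fun i hi => by omega)).trans ?_
    rw [← mul_sum]
    have h5 := geom2 hσ (it - J + 1)
    have h6 : (2 : ℝ) ^ J * (σ * 2 ^ (it - J + 1)) = 2 * (σ * 2 ^ it) := by
      have : (2 : ℝ) ^ it = 2 ^ J * 2 ^ (it - J) := by
        rw [← pow_add]; congr 1; omega
      rw [this, pow_succ]; ring
    calc (2 : ℝ) ^ J * ∑ i ∈ range (it - J + 1), σ * 2 ^ i
        ≤ 2 ^ J * (σ * 2 ^ (it - J + 1)) := mul_le_mul_of_nonneg_left h5 (by positivity)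
      _ = 2 * (σ * 2 ^ it) := h6
      _ ≤ 2 * t := by linarith
  linarith

theorem sum_sup2 (hσ : 0 < σ) (h1 : σ * 2 ^ it ≤ t)
    (G m : ℕ → ℝ) (hG : ∀ i, 0 ≤ G i) (hGs : ∑ i ∈ range N, G i ≤ A)
    (he1 : ∀ i < N, m i ≤ 2 ^ J * (σ * 2 ^ i))
    (he3 : ∀ i < N, it + 1 + L₀ ≤ i → m i ≤ 2 ^ J * G i) :
    ∑ i ∈ range N, m i ≤ 2 ^ J * (A + 2 * 2 ^ L₀ * t) := by
  have hs : ∀ i : ℕ, (0 : ℝ) < σ * 2 ^ i := fun i => by positivity
  have key : ∀ i ∈ range N, m i ≤ 2 ^ J * (G i + (if i ≤ it + L₀ then σ * 2 ^ i else 0)) := by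
    intro i hi
    have hi' := mem_range.1 hi
    by_cases c1 : it + 1 + L₀ ≤ i
    · have n2 : ¬ (i ≤ it + L₀) := by omega
      rw [if_neg n2, add_zero]
      exact he3 i hi' c1
    · have n2 : (i ≤ it + L₀) := by omega
      rw [if_pos n2]
      have := hG i
      refine (he1 i hi').trans (mul_le_mul_of_nonneg_left (by linarith) (by positivity))
  refine (sum_le_sum key).trans ?_
  rw [← mul_sum, sum_add_distrib]
  apply mul_le_mul_of_nonneg_left _ (by positivity)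
  have s3 : ∑ i ∈ range N, (if i ≤ it + L₀ then σ * 2 ^ i else 0) ≤ 2 * 2 ^ L₀ * t :=
    low_sum2 hσ h1
  linarith

theorem sum_direct {b : ℝ} (hσ : 0 < σ) (hJ : J ≤ it)
    (h1 : σ * 2 ^ it ≤ t) (h2 : t < σ * 2 ^ (it + 1)) (hit : it < N) (e : ℕ → ℝ)
    (he5 : ∀ i < N, b * t - 2 * t ^ 2 / (2 ^ J * (σ * 2 ^ i)) - 4 * (σ * 2 ^ i) ≤ e i) :
    (b * J - 12) * t ≤ ∑ i ∈ Ioc (it - J) it, e i := by
  have hs : ∀ i : ℕ, (0 : ℝ) < σ * 2 ^ i := fun i => by positivity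
  have ht : 0 < t := (hs it).trans_le h1
  have key : ∀ i ∈ Ioc (it - J) it, b * t - 2 * t ^ 2 / (2 ^ J * (σ * 2 ^ i)) -
      4 * (σ * 2 ^ i) ≤ e i := by
    intro i hi
    rw [mem_Ioc] at hi
    exact he5 i (by omega)
  refine le_trans ?_ (sum_le_sum key)
  rw [sum_sub_distrib, sum_sub_distrib, sum_const, Nat.card_Ioc, nsmul_eq_mul]
  have h3 : it - (it - J) = J := by omega
  rw [h3, ← mul_sum]
  have h4 : ∑ i ∈ Ioc (it - J) it, σ * 2 ^ i ≤ 2 * t := by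
    have h5 : ∑ i ∈ Ioc (it - J) it, σ * 2 ^ i ≤ ∑ i ∈ range (it + 1), σ * 2 ^ i := by
      apply sum_le_sum_of_subset_of_nonneg
      · intro i hi
        rw [mem_Ioc] at hi
        rw [mem_range]; omega
      · intro i _ _; exact (hs i).le
    have h6 := geom2 hσ (it + 1)
    have h7 : σ * (2 : ℝ) ^ (it + 1) = 2 * (σ * 2 ^ it) := by rw [pow_succ]; ring
    linarith
  have h5 : ∑ i ∈ Ioc (it - J) it, 2 * t ^ 2 / (2 ^ J * (σ * 2 ^ i)) ≤ 4 * t := by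
    have h6 : Ioc (it - J) it = Ico (it - J + 1) (it + 1) := by
      ext i; rw [mem_Ioc, mem_Ico]; omega
    rw [h6, sum_Ico_eq_sum_range]
    have h7 : it + 1 - (it - J + 1) = J := by omega
    rw [h7]
    have h8 : ∀ k ∈ range J, 2 * t ^ 2 / (2 ^ J * (σ * 2 ^ (it - J + 1 + k))) ≤
        2 * t * (1 / 2) ^ k := by
      intro k _
      have h9 : (2 : ℝ) ^ J * (σ * 2 ^ (it - J + 1 + k)) = (σ * 2 ^ (it + 1)) * 2 ^ k := by
        have h10 : (2 : ℝ) ^ (it + 1) = 2 ^ J * 2 ^ (it - J + 1) := by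
          rw [← pow_add]; congr 1; omega
        rw [h10, pow_add]; ring
      have h11 : (0 : ℝ) < 2 ^ k := by positivity
      have h12 : 0 < σ * 2 ^ (it + 1) := hs _
      rw [h9, div_le_iff₀ (by positivity)]
      have h13 : 2 * t * (1 / 2) ^ k * (σ * 2 ^ (it + 1) * 2 ^ k) =
          2 * t * (σ * 2 ^ (it + 1)) * ((1 / 2) ^ k * 2 ^ k) := by ring
      rw [h13, ← mul_pow]
      norm_num
      nlinarith
    refine (sum_le_sum h8).trans ?_
    rw [← mul_sum]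
    have h14 := sum_geometric_two_le J
    nlinarith
  nlinarith

end scales

end Pool.Agent.Lib.MP_716709_gt.Sharp93
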