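import Pool.Agent.Lib.MP_716709_gt.Sharp93.Window
import Pool.Agent.Lib.MP_716709_gt.Sharp93.Signs
import Pool.Agent.Lib.MP_716709_gt.Sharp93.Sums

set_option autoImplicit false

namespace Pool.Agent.Lib.MP_716709_gt.Sharp93

open Finset Pool.Agent.Lib.MP_716709_gt.Upper

variable {X : Type*} [Fintype X] [MetricSpace X]

theorem random_sharp {n : ℕ} (hX : Fintype.card X ≤ n)
    {δ : ℝ} (hδ : 0 < δ) (hsep : ∀ x y : X, x ≠ y → δ ≤ dist x y)
    {e : ℝ} (he0 : 0 < e) (he1 : e < 1) {L₀ : ℕ} (hL₀ : 1 ≤ e * 2 ^ L₀)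
    {Ω : Type} [Fintype Ω] (β : Ω → X → ℝ) (w : ℝ → Ω → ℝ)
    (hβ : ∀ T x, 0 ≤ β T x ∧ β T x ≤ 1)
    (hw : ∀ Δ, e * δ ≤ Δ → IsProb (w Δ) ∧ ∀ x y : X,
      Ex (w Δ) (fun T => |β T x - β T y|) ≤ dist x y / Δ ∧
      (1 - 2 * e) * (dist x y / Δ) - 2 * (dist x y / Δ) ^ 2 ≤
        Ex (w Δ) (fun T => |β T x - β T y|))
    {J : ℕ} (hJ : 0 < J) :
    ∃ (Ω' : Type) (_ : Fintype Ω') (p : Ω' → ℝ) (ψ : Ω' → X → ℝ), IsProb p ∧ ∀ x y : X,
      (∀ ω, |ψ ω x - ψ ω y| ≤
        2 ^ J * (2 * (1 + e) / Real.log 2 * Real.log n + 2 * 2 ^ L₀) * dist x y) ∧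
      ((1 - 2 * e) * J - 12) / J * dist x y ≤ Ex p (fun ω => |ψ ω x - ψ ω y|) ∧
      Ex p (fun ω => |ψ ω x - ψ ω y|) ≤
        (J + L₀ + 8 * 2 ^ L₀ + 2 + 2 * (1 + e) ^ 2 / Real.log 2 * Real.log n) / J * dist x y := by
  classical
  have hL : 0 ≤ Real.log n := Real.log_natCast_nonneg n
  have hl2 : 0 < Real.log 2 := Real.log_pos (by norm_num)
  set Lg := Real.log n with hLg
  have hJR : (0 : ℝ) < J := by exact_mod_cast hJ
  -- scales
  set h : ℝ := e * δ / 2 ^ J with hhdef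
  have hh : 0 < h := by positivity
  have hhJ : h * 2 ^ J = e * δ := by rw [hhdef]; field_simp
  have heδ : 0 < e * δ := by positivity
  have hhe : h ≤ e * δ := by
    have h1 : (1 : ℝ) ≤ 2 ^ J := one_le_pow₀ (by norm_num)
    rw [← hhJ]
    nlinarith
  set R : ℝ := ∑ x : X, ∑ y : X, dist x y with hR
  have hRle : ∀ x y : X, dist x y ≤ R := by
    intro x y
    have h1 : dist x y ≤ ∑ y : X, dist x y :=
      single_le_sum (f := fun y => dist x y) (fun _ _ => dist_nonneg) (mem_univ y)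
    have h2 : ∑ y : X, dist x y ≤ R :=
      single_le_sum (f := fun x => ∑ y : X, dist x y)
        (fun _ _ => sum_nonneg fun _ _ => dist_nonneg) (mem_univ x)
    linarith
  obtain ⟨N, hN⟩ := pow_unbounded_of_one_lt (R / h) (by norm_num : (1 : ℝ) < 2)
  rw [div_lt_iff₀ hh] at hN
  have hN' : ∀ x y : X, dist x y < h * 2 ^ N := fun x y => by
    have := hRle x y; linarith
  set r : ℕ → ℝ := fun i => 2 ^ J * (h * 2 ^ i) with hr
  have hr0 : ∀ i, 0 < r i := fun i => by rw [hr]; positivity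
  have hrδ : ∀ i, e * δ ≤ r i := fun i => by
    have h1 : (1 : ℝ) ≤ 2 ^ i := one_le_pow₀ (by norm_num)
    have h2 : r i = (e * δ) * 2 ^ i := by rw [hr]; simp only; rw [← hhJ]; ring
    rw [h2]
    nlinarith
  set u : ℕ → Ω → X → ℝ := fun i T => wg (r i) h i (β T) with hu
  have hwp : ∀ i : Fin N, IsProb (w (r i)) := fun i => (hw _ (hrδ i)).1
  have hwb : ∀ i : Fin N, IsProb (sw (w (r i))) := fun i => isProb_sw (hwp i)
  set P : (Fin N → Ω × Bool) → ℝ := prodW (fun i : Fin N => sw (w (r i))) with hP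
  have hPp : IsProb P := isProb_prodW hwb
  refine ⟨Fin J × (Fin N → Ω × Bool), inferInstance, mixW J P,
    fun a x => ∑ i ∈ univ.filter (fun i : Fin N => cls hJ i = a.1),
      sg (a.2 i).2 * u i (a.2 i).1 x, isProb_mixW hJ hPp, ?_⟩
  intro x y
  have hdiff : ∀ a : Fin J × (Fin N → Ω × Bool),
      (∑ i ∈ univ.filter (fun i : Fin N => cls hJ i = a.1), sg (a.2 i).2 * u i (a.2 i).1 x) -
      (∑ i ∈ univ.filter (fun i : Fin N => cls hJ i = a.1), sg (a.2 i).2 * u i (a.2 i).1 y) =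
      ∑ i ∈ univ.filter (fun i : Fin N => cls hJ i = a.1),
        sg (a.2 i).2 * (u i (a.2 i).1 x - u i (a.2 i).1 y) := by
    intro a
    rw [← sum_sub_distrib]
    exact sum_congr rfl fun i _ => by ring
  have hcongr : (fun a : Fin J × (Fin N → Ω × Bool) =>
      |(∑ i ∈ univ.filter (fun i : Fin N => cls hJ i = a.1), sg (a.2 i).2 * u i (a.2 i).1 x) -
      (∑ i ∈ univ.filter (fun i : Fin N => cls hJ i = a.1), sg (a.2 i).2 * u i (a.2 i).1 y)|) =
      fun a => |∑ i ∈ univ.filter (fun i : Fin N => cls hJ i = a.1),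
        sg (a.2 i).2 * (u i (a.2 i).1 x - u i (a.2 i).1 y)| :=
    funext fun a => by rw [hdiff a]
  by_cases hxy : x = y
  · subst hxy
    rw [hcongr]
    have hz : Ex (mixW J P) (fun a : Fin J × (Fin N → Ω × Bool) =>
      |∑ i ∈ univ.filter (fun i : Fin N => cls hJ i = a.1),
        sg (a.2 i).2 * (u i (a.2 i).1 x - u i (a.2 i).1 x)|) = 0 := by
      unfold Ex; simp
    rw [hz]
    simp
  set t := dist x y with ht
  have htδ : δ ≤ t := hsep x y hxy
  have ht0 : 0 < t := hδ.trans_le htδ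
  have heδt : e * δ ≤ e * t := mul_le_mul_of_nonneg_left htδ he0.le
  obtain ⟨it, hJit, hitN, hit1, hit2⟩ := exists_scale2 hh (J := J) (N := N) (t := t)
    (by rw [hhJ]; nlinarith) (hN' x y)
  -- number of steps
  set q : ℕ := ⌈t / h⌉₊ with hq
  have hq1 : t ≤ q * h := by
    have := Nat.le_ceil (t / h)
    rwa [div_le_iff₀ hh] at this
  have hq2 : (q : ℝ) * h ≤ (1 + e) * t := by
    have h1 : (q : ℝ) < t / h + 1 := Nat.ceil_lt_add_one (by positivity)
    have h2 : (q : ℝ) * h < (t / h + 1) * h := mul_lt_mul_of_pos_right h1 hh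
    have h3 : (t / h + 1) * h = t + h := by field_simp
    linarith
  have hq3 : q ≤ 2 ^ (it + 1) := by
    apply Nat.ceil_le.2
    rw [div_le_iff₀ hh]
    push_cast
    linarith
  have hqi : ∀ i : ℕ, it + 1 + L₀ ≤ i → q ≤ 2 ^ i := fun i hi =>
    hq3.trans (Nat.pow_le_pow_right (by norm_num) (by omega))
  have hte : ∀ i : ℕ, it + 1 + L₀ ≤ i → t ≤ e * (h * 2 ^ i) := by
    intro i hi
    have h1 : (2 : ℝ) ^ (it + 1 + L₀) ≤ 2 ^ i := pow_le_pow_right₀ (by norm_num) hi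
    have h2 : e * (h * 2 ^ (it + 1 + L₀)) = (e * 2 ^ L₀) * (h * 2 ^ (it + 1)) := by
      rw [pow_add _ (it + 1) L₀]; ring
    have h3 : e * (h * 2 ^ (it + 1 + L₀)) ≤ e * (h * 2 ^ i) :=
      mul_le_mul_of_nonneg_left (mul_le_mul_of_nonneg_left h1 hh.le) he0.le
    have h4 : (0 : ℝ) < h * 2 ^ (it + 1) := by positivity
    nlinarith
  -- growth
  set G : ℕ → ℝ := fun i => if it + 1 + L₀ ≤ i then Gw h q x y i else 0 with hGdef
  have hG : ∀ i, 0 ≤ G i := fun i => by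
    rw [hGdef]; simp only
    split_ifs
    · exact Gw_nonneg hh q x y i
    · exact le_rfl
  have hGs : ∑ i ∈ range N, G i ≤ q * Lg := sum_Gw hX hh x y (hqi _ le_rfl) N
  -- expectations
  set E : ℕ → ℝ := fun i => Ex (w (r i)) (fun T => |u i T x - u i T y|) with hE
  have hup : ∀ i, ∀ x y : X, Ex (w (r i)) (fun T => |β T x - β T y|) ≤ dist x y / r i :=
    fun i x y => ((hw _ (hrδ i)).2 x y).1
  have hlo : ∀ i, ∀ x y : X, (1 - 2 * e) * (dist x y / r i) - 2 * (dist x y / r i) ^ 2 ≤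
      Ex (w (r i)) (fun T => |β T x - β T y|) := fun i x y => ((hw _ (hrδ i)).2 x y).2
  have hPr : ∀ i, IsProb (w (r i)) := fun i => (hw _ (hrδ i)).1
  have hpt1 : ∀ i T, |u i T x - u i T y| ≤ 2 ^ J * (h * 2 ^ i) := fun i T =>
    wg_one (hr0 i).le hh i (hβ T) x y
  have hpt2 : ∀ i T, it + 1 + L₀ ≤ i → |u i T x - u i T y| ≤
      2 ^ J * (2 * h / Real.log 2 * G i) := by
    intro i T hi
    have h1 := wg_two (A := 2 ^ J) (by positivity) hh (hβ T) (x := x) (y := y) hq1 (hqi i hi)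
    have h2 : G i = Gw h q x y i := by rw [hGdef]; simp only; rw [if_pos hi]
    rw [h2]
    exact h1
  have hE1 : ∀ i < N, E i ≤ 2 ^ J * (h * 2 ^ i) := fun i _ => Ex_le_const (hPr i) (hpt1 i)
  have hE3 : ∀ i < N, it + 1 + L₀ ≤ i → E i ≤ 2 * (h * (1 + e)) / Real.log 2 * G i := by
    intro i _ hi
    have h2 : G i = Gw h q x y i := by rw [hGdef]; simp only; rw [if_pos hi]
    rw [h2]
    exact wg_three (hPr i) (hr0 i) hh he0.le (hup i) hq1 (hqi i hi) (hte i hi)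
  have hE4 : ∀ i < N, E i ≤ t + 4 * (h * 2 ^ i) := fun i _ =>
    wg_four (hPr i) (hr0 i) hh i (hup i) x y
  have hE5 : ∀ i < N, (1 - 2 * e) * t - 2 * t ^ 2 / (2 ^ J * (h * 2 ^ i)) - 4 * (h * 2 ^ i) ≤
      E i := fun i _ => wg_five (hPr i) (hr0 i) hh i (hup i) (hlo i) x y
  have hE0 : ∀ i, 0 ≤ E i := fun i => Ex_nonneg (hPr i) fun T => abs_nonneg _
  have hsumU : ∑ i ∈ range N, E i ≤ 2 * (h * (1 + e)) / Real.log 2 * (q * Lg) +
      (J + L₀ + 8 * 2 ^ L₀ + 2) * t := by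
    refine sum_upper2 hh hJit hit1 (fun i => 2 * (h * (1 + e)) / Real.log 2 * G i) E
      (fun i => mul_nonneg (by positivity) (hG i)) ?_ hE1 hE3 hE4
    rw [← mul_sum]
    exact mul_le_mul_of_nonneg_left hGs (by positivity)
  have hqL : (q : ℝ) * h * Lg ≤ (1 + e) * t * Lg := mul_le_mul_of_nonneg_right hq2 hL
  have hsumU' : ∑ i ∈ range N, E i ≤
      (J + L₀ + 8 * 2 ^ L₀ + 2 + 2 * (1 + e) ^ 2 / Real.log 2 * Lg) * t := by
    refine hsumU.trans ?_
    have h1 : 2 * (h * (1 + e)) / Real.log 2 * (q * Lg) =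
        2 * (1 + e) / Real.log 2 * (q * h * Lg) := by ring
    have h2 : 2 * (1 + e) / Real.log 2 * (q * h * Lg) ≤
        2 * (1 + e) / Real.log 2 * ((1 + e) * t * Lg) :=
      mul_le_mul_of_nonneg_left hqL (by positivity)
    have h3 : 2 * (1 + e) / Real.log 2 * ((1 + e) * t * Lg) =
        2 * (1 + e) ^ 2 / Real.log 2 * Lg * t := by ring
    linarith
  have hsumL : ((1 - 2 * e) * J - 12) * t ≤ ∑ i ∈ Ioc (it - J) it, E i :=
    sum_direct hh hJit hit1 hit2 hitN E hE5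
  have hfin : ∑ i : Fin N, E i = ∑ i ∈ range N, E i := Fin.sum_univ_eq_sum_range E N
  -- class sums
  set C : Fin J → ℝ := fun c => Ex P (fun ω => |∑ i ∈ univ.filter (fun i : Fin N => cls hJ i = c),
    sg (ω i).2 * (u i (ω i).1 x - u i (ω i).1 y)|) with hC
  have hCE : Ex (mixW J P) (fun a : Fin J × (Fin N → Ω × Bool) =>
      |∑ i ∈ univ.filter (fun i : Fin N => cls hJ i = a.1),
        sg (a.2 i).2 * (u i (a.2 i).1 x - u i (a.2 i).1 y)|) = (1 / (J : ℝ)) * ∑ c, C c :=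
    Ex_mixW J P _
  have hC0 : ∀ c, 0 ≤ C c := fun c => Ex_nonneg hPp fun ω => abs_nonneg _
  have hCU : ∀ c, C c ≤ ∑ i ∈ univ.filter (fun i : Fin N => cls hJ i = c), E i := fun c =>
    signed_upper (w := fun i : Fin N => w (r i)) hwp (fun i T => u i T x - u i T y) _
  have hCL : ∀ i : Fin N, E i ≤ C (cls hJ i) := fun i =>
    signed_lower (w := fun i : Fin N => w (r i)) hwp (fun i T => u i T x - u i T y) _
      (mem_filter.2 ⟨mem_univ i, rfl⟩)
  refine ⟨?_, ?_, ?_⟩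
  · intro a
    have h0 := hdiff a
    simp only at h0 ⊢
    rw [h0]
    set m : ℕ → ℝ := fun i => if hi : i < N then |u i (a.2 ⟨i, hi⟩).1 x - u i (a.2 ⟨i, hi⟩).1 y|
      else 0 with hm
    have h1 : |∑ i ∈ univ.filter (fun i : Fin N => cls hJ i = a.1),
        sg (a.2 i).2 * (u i (a.2 i).1 x - u i (a.2 i).1 y)| ≤ ∑ i : Fin N, m i := by
      refine (abs_sum_le_sum_abs _ _).trans ?_
      have h2 : ∀ i : Fin N, m i = |u i (a.2 i).1 x - u i (a.2 i).1 y| := by
        intro i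
        rw [hm]; simp only; rw [dif_pos i.2]
      refine (sum_le_sum (g := fun i : Fin N => m i) fun i _ => ?_).trans
        (sum_le_sum_of_subset_of_nonneg (subset_univ _) fun i _ _ => ?_)
      · rw [h2, abs_mul, abs_sg, one_mul]
      · rw [h2]; exact abs_nonneg _
    refine h1.trans ?_
    rw [Fin.sum_univ_eq_sum_range m N]
    have h3 : ∑ i ∈ range N, m i ≤ 2 ^ J * (2 * h / Real.log 2 * (q * Lg) + 2 * 2 ^ L₀ * t) := by
      refine sum_sup2 hh hit1 (fun i => 2 * h / Real.log 2 * G i) m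
        (fun i => mul_nonneg (by positivity) (hG i)) ?_ ?_ ?_
      · rw [← mul_sum]
        exact mul_le_mul_of_nonneg_left hGs (by positivity)
      · intro i hi
        rw [hm]; simp only; rw [dif_pos hi]
        exact hpt1 i _
      · intro i hi hti
        rw [hm]; simp only; rw [dif_pos hi]
        exact hpt2 i _ hti
    refine h3.trans ?_
    rw [mul_assoc (2 ^ J)]
    apply mul_le_mul_of_nonneg_left _ (by positivity)
    have h4 : 2 * h / Real.log 2 * (q * Lg) = 2 / Real.log 2 * (q * h * Lg) := by ring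
    have h5 : 2 / Real.log 2 * (q * h * Lg) ≤ 2 / Real.log 2 * ((1 + e) * t * Lg) :=
      mul_le_mul_of_nonneg_left hqL (by positivity)
    have h6 : 2 / Real.log 2 * ((1 + e) * t * Lg) = 2 * (1 + e) / Real.log 2 * Lg * t := by ring
    linarith
  · rw [hcongr, hCE]
    have h1 : ∑ i ∈ univ.filter (fun i : Fin N => (i : ℕ) ∈ Ioc (it - J) it), E i ≤ ∑ c, C c :=
      class_lower hJ (fun i : Fin N => E i) C hC0 hCL
    have hO : ∑ i ∈ univ.filter (fun i : Fin N => (i : ℕ) ∈ Ioc (it - J) it), E i =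
        ∑ i ∈ Ioc (it - J) it, E i := by
      rw [sum_filter]
      have h3 := Fin.sum_univ_eq_sum_range (fun i => if i ∈ Ioc (it - J) it then E i else 0) N
      rw [h3, ← sum_filter]
      apply sum_congr _ (fun _ _ => rfl)
      ext i
      rw [mem_filter, mem_range, mem_Ioc]
      omega
    rw [hO] at h1
    have h2 := hsumL.trans h1
    have h3 : ((1 - 2 * e) * J - 12) / J * t = (1 / (J : ℝ)) * (((1 - 2 * e) * J - 12) * t) := by
      ring
    rw [h3]
    exact mul_le_mul_of_nonneg_left h2 (by positivity)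
  · rw [hcongr, hCE]
    have h1 : ∑ c, C c ≤ ∑ i : Fin N, E i := class_upper hJ (fun i : Fin N => E i) C hCU
    rw [hfin] at h1
    have h2 := h1.trans hsumU'
    have h3 : (J + L₀ + 8 * 2 ^ L₀ + 2 + 2 * (1 + e) ^ 2 / Real.log 2 * Lg) / J * t =
        (1 / (J : ℝ)) * ((J + L₀ + 8 * 2 ^ L₀ + 2 + 2 * (1 + e) ^ 2 / Real.log 2 * Lg) * t) := by
      ring
    rw [h3]
    exact mul_le_mul_of_nonneg_left h2 (by positivity)

end Pool.Agent.Lib.MP_716709_gt.Sharp93
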