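import Pool.Agent.Lib.MP_716709_gt.Points
import Pool.Agent.Lib.MP_716709_gt.Upper.Sampling

set_option autoImplicit false

namespace Pool.Agent.Lib.MP_716709_gt.Sharp93

open Finset Pool.Agent.Lib.MP_716709_gt Pool.Agent.Lib.MP_716709_gt.Upper

theorem exp_low {l x : ℝ} (hl0 : 0 ≤ l) (hl1 : l ≤ 1) (h0 : 0 ≤ x) (h1 : x ≤ 1) :
    Real.exp (-(l * x)) ≤ 1 - (l - l ^ 2) * x := by
  have hlx : 0 ≤ l * x := mul_nonneg hl0 h0
  have hlx1 : l * x ≤ 1 := mul_le_one₀ hl1 h0 h1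
  have h := Real.abs_exp_sub_one_sub_id_le (x := -(l * x)) (by rw [abs_neg, abs_of_nonneg hlx]; exact hlx1)
  have h2 := (abs_le.1 h).2
  have h3 : (-(l * x)) ^ 2 ≤ l ^ 2 * x := by
    have : x ^ 2 ≤ x := by nlinarith
    calc (-(l * x)) ^ 2 = l ^ 2 * x ^ 2 := by ring
      _ ≤ l ^ 2 * x := mul_le_mul_of_nonneg_left this (sq_nonneg l)
  linarith

theorem exp_upp {l x : ℝ} (hl0 : 0 ≤ l) (hl1 : l ≤ 1) (h0 : 0 ≤ x) (h1 : x ≤ 1) :
    Real.exp (l * x) ≤ 1 + (l + l ^ 2) * x := by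
  have hlx : 0 ≤ l * x := mul_nonneg hl0 h0
  have hlx1 : l * x ≤ 1 := mul_le_one₀ hl1 h0 h1
  have h := Real.abs_exp_sub_one_sub_id_le (x := l * x) (by rw [abs_of_nonneg hlx]; exact hlx1)
  have h2 := (abs_le.1 h).2
  have h3 : (l * x) ^ 2 ≤ l ^ 2 * x := by
    have : x ^ 2 ≤ x := by nlinarith
    calc (l * x) ^ 2 = l ^ 2 * x ^ 2 := by ring
      _ ≤ l ^ 2 * x := mul_le_mul_of_nonneg_left this (sq_nonneg l)
  linarith

/-- Sampling coordinates with relative error `η`. -/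
theorem sampling_sharp {Ω ι : Type*} [Fintype Ω] [Fintype ι] {p : Ω → ℝ} (hp : IsProb p)
    (f : ι → Ω → ℝ) (h0 : ∀ j ω, 0 ≤ f j ω) (h1 : ∀ j ω, f j ω ≤ 1) (k : ℕ) (θ : ℝ)
    (hθ : ∀ j, θ ≤ Ex p (f j)) {η : ℝ} (hη0 : 0 < η) (hη1 : η ≤ 1)
    (hk : 2 * (Fintype.card ι : ℝ) * Real.exp (-(k * θ * (η ^ 2 / 4))) < 1) :
    ∃ ω : Fin k → Ω, ∀ j, (1 - η) * (k * Ex p (f j)) ≤ ∑ l, f j (ω l) ∧
      ∑ l, f j (ω l) ≤ (1 + η) * (k * Ex p (f j)) := by
  classical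
  by_contra hcon
  push Not at hcon
  set l : ℝ := η / 2 with hl
  have hl0 : 0 < l := by rw [hl]; linarith
  have hl1 : l ≤ 1 := by rw [hl]; linarith
  set w : Fin k → Ω → ℝ := fun _ => p with hw
  have hwp : ∀ i, IsProb (w i) := fun _ => hp
  have hP : IsProb (prodW w) := isProb_prodW hwp
  set Φ : (Fin k → Ω) → ℝ := fun ω => ∑ j, (Real.exp (l * (1 - η) * (k * Ex p (f j))) *
      (∏ i, Real.exp (-(l * f j (ω i)))) +
      Real.exp (-(l * (1 + η) * (k * Ex p (f j)))) * ∏ i, Real.exp (l * f j (ω i))) with hΦ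
  have hone : ∀ ω, 1 ≤ Φ ω := by
    intro ω
    obtain ⟨j, hj⟩ := hcon ω
    have hnn : ∀ i ∈ (univ : Finset ι), 0 ≤ (Real.exp (l * (1 - η) * (k * Ex p (f i))) *
      (∏ a, Real.exp (-(l * f i (ω a)))) +
      Real.exp (-(l * (1 + η) * (k * Ex p (f i)))) * ∏ a, Real.exp (l * f i (ω a))) := fun i _ => by
      positivity
    refine le_trans ?_ (single_le_sum hnn (mem_univ j))
    have e1 : Real.exp (l * (1 - η) * (k * Ex p (f j))) * (∏ i, Real.exp (-(l * f j (ω i)))) =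
        Real.exp (l * ((1 - η) * (k * Ex p (f j)) - ∑ i, f j (ω i))) := by
      rw [← Real.exp_sum, ← Real.exp_add]
      congr 1
      rw [sum_neg_distrib, ← mul_sum]; ring
    have e2 : Real.exp (-(l * (1 + η) * (k * Ex p (f j)))) * (∏ i, Real.exp (l * f j (ω i))) =
        Real.exp (l * (∑ i, f j (ω i) - (1 + η) * (k * Ex p (f j)))) := by
      rw [← Real.exp_sum, ← Real.exp_add]
      congr 1
      rw [← mul_sum]; ring
    rw [e1, e2]
    by_cases hc : (1 - η) * (k * Ex p (f j)) ≤ ∑ i, f j (ω i)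
    · have h3 := hj hc
      have : (1 : ℝ) ≤ Real.exp (l * (∑ i, f j (ω i) - (1 + η) * (k * Ex p (f j)))) :=
        Real.one_le_exp (mul_nonneg hl0.le (by linarith))
      have h4 := Real.exp_pos (l * ((1 - η) * (k * Ex p (f j)) - ∑ i, f j (ω i)))
      linarith
    · push Not at hc
      have : (1 : ℝ) ≤ Real.exp (l * ((1 - η) * (k * Ex p (f j)) - ∑ i, f j (ω i))) :=
        Real.one_le_exp (mul_nonneg hl0.le (by linarith))
      have h4 := Real.exp_pos (l * (∑ i, f j (ω i) - (1 + η) * (k * Ex p (f j))))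
      linarith
  have hE1 : 1 ≤ Ex (prodW w) Φ := by
    rw [← Ex_const hP 1]; exact Ex_mono hP hone
  have hE2 : Ex (prodW w) Φ = ∑ j, (Real.exp (l * (1 - η) * (k * Ex p (f j))) *
      (Ex p (fun ω => Real.exp (-(l * f j ω)))) ^ k +
      Real.exp (-(l * (1 + η) * (k * Ex p (f j)))) * (Ex p (fun ω => Real.exp (l * f j ω))) ^ k) := by
    rw [hΦ, Ex_sum]
    refine sum_congr rfl fun j _ => ?_
    rw [Ex_add, Ex_mul_left, Ex_mul_left]
    have a1 := Ex_prodW_prod w (fun _ ω => Real.exp (-(l * f j ω)))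
    have a2 := Ex_prodW_prod w (fun _ ω => Real.exp (l * f j ω))
    rw [a1, a2]
    simp [hw]
  have hE3 : ∀ j, Real.exp (l * (1 - η) * (k * Ex p (f j))) *
      (Ex p (fun ω => Real.exp (-(l * f j ω)))) ^ k +
      Real.exp (-(l * (1 + η) * (k * Ex p (f j)))) * (Ex p (fun ω => Real.exp (l * f j ω))) ^ k ≤
      2 * Real.exp (-(k * θ * (η ^ 2 / 4))) := by
    intro j
    have b1 : Ex p (fun ω => Real.exp (-(l * f j ω))) ≤ Real.exp (-((l - l ^ 2) * Ex p (f j))) := by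
      calc Ex p (fun ω => Real.exp (-(l * f j ω)))
          ≤ Ex p (fun ω => 1 - (l - l ^ 2) * f j ω) :=
            Ex_mono hp fun ω => exp_low hl0.le hl1 (h0 j ω) (h1 j ω)
        _ = 1 - (l - l ^ 2) * Ex p (f j) := by
            rw [Ex_sub (fun _ => (1 : ℝ)), Ex_const hp, Ex_mul_left]
        _ ≤ _ := by
            have := Real.add_one_le_exp (-((l - l ^ 2) * Ex p (f j)))
            linarith
    have b2 : Ex p (fun ω => Real.exp (l * f j ω)) ≤ Real.exp ((l + l ^ 2) * Ex p (f j)) := by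
      calc Ex p (fun ω => Real.exp (l * f j ω))
          ≤ Ex p (fun ω => 1 + (l + l ^ 2) * f j ω) :=
            Ex_mono hp fun ω => exp_upp hl0.le hl1 (h0 j ω) (h1 j ω)
        _ = 1 + (l + l ^ 2) * Ex p (f j) := by
            rw [Ex_add (fun _ => (1 : ℝ)), Ex_const hp, Ex_mul_left]
        _ ≤ _ := by
            have := Real.add_one_le_exp ((l + l ^ 2) * Ex p (f j))
            linarith
    have hm : (k : ℝ) * θ * (η ^ 2 / 4) ≤ k * Ex p (f j) * (η ^ 2 / 4) :=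
      mul_le_mul_of_nonneg_right (mul_le_mul_of_nonneg_left (hθ j) (Nat.cast_nonneg k))
        (by positivity)
    have c1 : Real.exp (l * (1 - η) * (k * Ex p (f j))) *
        (Ex p (fun ω => Real.exp (-(l * f j ω)))) ^ k ≤ Real.exp (-(k * θ * (η ^ 2 / 4))) := by
      have d1 : (Ex p (fun ω => Real.exp (-(l * f j ω)))) ^ k ≤
          (Real.exp (-((l - l ^ 2) * Ex p (f j)))) ^ k :=
        pow_le_pow_left₀ (Ex_nonneg hp fun ω => (Real.exp_pos _).le) b1 k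
      calc _ ≤ Real.exp (l * (1 - η) * (k * Ex p (f j))) *
            (Real.exp (-((l - l ^ 2) * Ex p (f j)))) ^ k :=
            mul_le_mul_of_nonneg_left d1 (Real.exp_pos _).le
        _ = Real.exp (-(k * Ex p (f j) * (η ^ 2 / 4))) := by
            rw [← Real.exp_nat_mul, ← Real.exp_add]; congr 1; rw [hl]; ring
        _ ≤ _ := Real.exp_le_exp.2 (by linarith)
    have c2 : Real.exp (-(l * (1 + η) * (k * Ex p (f j)))) *
        (Ex p (fun ω => Real.exp (l * f j ω))) ^ k ≤ Real.exp (-(k * θ * (η ^ 2 / 4))) := by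
      have d1 : (Ex p (fun ω => Real.exp (l * f j ω))) ^ k ≤
          (Real.exp ((l + l ^ 2) * Ex p (f j))) ^ k :=
        pow_le_pow_left₀ (Ex_nonneg hp fun ω => (Real.exp_pos _).le) b2 k
      calc _ ≤ Real.exp (-(l * (1 + η) * (k * Ex p (f j)))) *
            (Real.exp ((l + l ^ 2) * Ex p (f j))) ^ k :=
            mul_le_mul_of_nonneg_left d1 (Real.exp_pos _).le
        _ = Real.exp (-(k * Ex p (f j) * (η ^ 2 / 4))) := by
            rw [← Real.exp_nat_mul, ← Real.exp_add]; congr 1; rw [hl]; ring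
        _ ≤ _ := Real.exp_le_exp.2 (by linarith)
    linarith
  have hE4 : Ex (prodW w) Φ ≤ 2 * (Fintype.card ι : ℝ) * Real.exp (-(k * θ * (η ^ 2 / 4))) := by
    rw [hE2]
    refine (sum_le_sum fun j _ => hE3 j).trans ?_
    rw [sum_const, card_univ, nsmul_eq_mul]
    linarith
  linarith

theorem embeds_sharp {M : Finset L1} {Ω : Type} [Fintype Ω] {p : Ω → ℝ} (hp : IsProb p)
    (ψ : Ω → M → ℝ) {a b B₁ η : ℝ} (ha : 0 < a) (hB : 0 < B₁) (hη0 : 0 < η) (hη1 : η < 1)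
    (h1 : ∀ (x y : M) ω, |ψ ω x - ψ ω y| ≤ B₁ * dist x y)
    (h2 : ∀ x y : M, a * dist x y ≤ Ex p (fun ω => |ψ ω x - ψ ω y|))
    (h3 : ∀ x y : M, Ex p (fun ω => |ψ ω x - ψ ω y|) ≤ b * dist x y)
    {k : ℕ} (hk0 : 0 < k)
    (hk : 2 * (M.card : ℝ) ^ 2 * Real.exp (-(k * (a / B₁) * (η ^ 2 / 4))) < 1) :
    Embeds M ((1 + η) / (1 - η) * (b / a)) k := by
  classical
  set f : {q : M × M // q.1 ≠ q.2} → Ω → ℝ := fun q ω =>
    |ψ ω q.1.1 - ψ ω q.1.2| / (B₁ * dist q.1.1 q.1.2) with hf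
  have hd : ∀ q : {q : M × M // q.1 ≠ q.2}, 0 < dist q.1.1 q.1.2 := fun q => dist_pos.2 q.2
  have hBd : ∀ q : {q : M × M // q.1 ≠ q.2}, 0 < B₁ * dist q.1.1 q.1.2 := fun q =>
    mul_pos hB (hd q)
  have hf0 : ∀ q ω, 0 ≤ f q ω := fun q ω => div_nonneg (abs_nonneg _) (hBd q).le
  have hf1 : ∀ q ω, f q ω ≤ 1 := fun q ω => (div_le_one (hBd q)).2 (h1 _ _ ω)
  have hEf : ∀ q, Ex p (f q) =
      Ex p (fun ω => |ψ ω q.1.1 - ψ ω q.1.2|) / (B₁ * dist q.1.1 q.1.2) := by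
    intro q
    have : f q = fun ω => (1 / (B₁ * dist q.1.1 q.1.2)) * |ψ ω q.1.1 - ψ ω q.1.2| := by
      funext ω; rw [hf]; simp only; ring
    rw [this, Ex_mul_left]; ring
  have hθ : ∀ q, a / B₁ ≤ Ex p (f q) := by
    intro q
    rw [hEf q, div_le_div_iff₀ hB (hBd q)]
    have := mul_le_mul_of_nonneg_left (h2 q.1.1 q.1.2) hB.le
    linarith
  have hcard : 2 * (Fintype.card {q : M × M // q.1 ≠ q.2} : ℝ) *
      Real.exp (-(k * (a / B₁) * (η ^ 2 / 4))) < 1 := by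
    refine lt_of_le_of_lt ?_ hk
    apply mul_le_mul_of_nonneg_right _ (Real.exp_pos _).le
    apply mul_le_mul_of_nonneg_left _ (by norm_num)
    have h4 : Fintype.card {q : M × M // q.1 ≠ q.2} ≤ M.card ^ 2 := by
      refine (Fintype.card_subtype_le _).trans ?_
      rw [Fintype.card_prod, Fintype.card_coe, sq]
    exact_mod_cast h4
  obtain ⟨ω, hω⟩ := sampling_sharp hp f hf0 hf1 k (a / B₁) hθ hη0 hη1.le hcard
  have hkR : (0 : ℝ) < k := by exact_mod_cast hk0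
  have h1η : 0 < 1 - η := by linarith
  refine ⟨fun x => WithLp.toLp 1 (fun l => ψ (ω l) x), (1 - η) * (k * a), by positivity, ?_⟩
  intro x y
  rw [PiLp.dist_eq_of_L1]
  have hsum : ∑ i : Fin k, dist ((WithLp.toLp 1 (fun l => ψ (ω l) x) : L1fin k) i)
      ((WithLp.toLp 1 (fun l => ψ (ω l) y) : L1fin k) i) = ∑ l : Fin k, |ψ (ω l) x - ψ (ω l) y| :=
    sum_congr rfl fun i _ => by simp [Real.dist_eq]
  rw [hsum]
  by_cases hxy : x = y
  · subst hxy; simp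
  have hq := hω ⟨(x, y), hxy⟩
  have hdxy : 0 < dist x y := dist_pos.2 hxy
  have hBxy : 0 < B₁ * dist x y := mul_pos hB hdxy
  have e1 : ∑ l, f ⟨(x, y), hxy⟩ (ω l) =
      (∑ l : Fin k, |ψ (ω l) x - ψ (ω l) y|) / (B₁ * dist x y) := by
    rw [hf]; simp only; rw [sum_div]
  rw [e1, hEf ⟨(x, y), hxy⟩] at hq
  simp only at hq
  obtain ⟨hq1, hq2⟩ := hq
  rw [le_div_iff₀ hBxy] at hq1
  rw [div_le_iff₀ hBxy] at hq2
  set E := Ex p (fun ω => |ψ ω x - ψ ω y|) with hE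
  have e2 : (1 - η) * (k * (E / (B₁ * dist x y))) * (B₁ * dist x y) = (1 - η) * (k * E) := by
    field_simp
  have e3 : (1 + η) * (k * (E / (B₁ * dist x y))) * (B₁ * dist x y) = (1 + η) * (k * E) := by
    field_simp
  rw [e2] at hq1
  rw [e3] at hq2
  constructor
  · have h5 := mul_le_mul_of_nonneg_left (h2 x y) hkR.le
    have h6 := mul_le_mul_of_nonneg_left h5 h1η.le
    linarith
  · have h5 := mul_le_mul_of_nonneg_left (h3 x y) hkR.le
    have h6 : (1 - η) * (k * a) * ((1 + η) / (1 - η) * (b / a)) * dist x y =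
        (1 + η) * (k * (b * dist x y)) := by
      field_simp
    rw [h6]
    have h7 := mul_le_mul_of_nonneg_left h5 (by linarith : (0:ℝ) ≤ 1 + η)
    linarith

end Pool.Agent.Lib.MP_716709_gt.Sharp93
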