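import Pool.Agent.Lib.MP_716709_gt.Sharp93.Kernel
import Pool.Agent.Lib.MP_716709_gt.Upper.Sampling

set_option autoImplicit false

namespace Pool.Agent.Lib.MP_716709_gt.Sharp93

open Finset Pool.Agent.Lib.MP_716709_gt.Upper

variable {X : Type*} [Fintype X] [MetricSpace X]

/-- the smoothed function -/
noncomputable def wg (r h : ℝ) (i : ℕ) (β : X → ℝ) (x : X) : ℝ := r * ∑ z, kr h i x z * β z

theorem wg_sub (r h : ℝ) (i : ℕ) (β : X → ℝ) (x y : X) :
    wg r h i β x - wg r h i β y = r * ∑ z, (kr h i x z - kr h i y z) * β z := by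
  unfold wg
  rw [← mul_sub, ← sum_sub_distrib]
  congr 1
  exact sum_congr rfl fun z _ => by ring

theorem wg_bounds {r h : ℝ} (hr : 0 ≤ r) (hh : 0 < h) (i : ℕ) {β : X → ℝ}
    (hβ : ∀ z, 0 ≤ β z ∧ β z ≤ 1) (x : X) : 0 ≤ wg r h i β x ∧ wg r h i β x ≤ r := by
  unfold wg
  constructor
  · exact mul_nonneg hr (sum_nonneg fun z _ => mul_nonneg (kr_nonneg h i x z) (hβ z).1)
  · have h1 : ∑ z, kr h i x z * β z ≤ ∑ z, kr h i x z :=
      sum_le_sum fun z _ => mul_le_of_le_one_right (kr_nonneg h i x z) (hβ z).2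
    rw [sum_kr hh i x] at h1
    calc r * ∑ z, kr h i x z * β z ≤ r * 1 := mul_le_mul_of_nonneg_left h1 hr
      _ = r := mul_one r

/-- (W1) -/
theorem wg_one {r h : ℝ} (hr : 0 ≤ r) (hh : 0 < h) (i : ℕ) {β : X → ℝ}
    (hβ : ∀ z, 0 ≤ β z ∧ β z ≤ 1) (x y : X) : |wg r h i β x - wg r h i β y| ≤ r := by
  have h1 := wg_bounds hr hh i hβ x
  have h2 := wg_bounds hr hh i hβ y
  rw [abs_le]
  constructor <;> linarith

/-- (W2) -/
theorem wg_two {A h : ℝ} (hA : 0 ≤ A) (hh : 0 < h) {q i : ℕ} {β : X → ℝ}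
    (hβ : ∀ z, 0 ≤ β z ∧ β z ≤ 1) {x y : X} (hq : dist x y ≤ q * h) (hqi : q ≤ 2 ^ i) :
    |wg (A * (h * 2 ^ i)) h i β x - wg (A * (h * 2 ^ i)) h i β y| ≤
      A * (2 * h / Real.log 2 * Gw h q x y i) := by
  have hr : 0 ≤ A * (h * 2 ^ i) := by positivity
  rw [wg_sub, abs_mul, abs_of_nonneg hr, mul_assoc]
  apply mul_le_mul_of_nonneg_left _ hA
  refine le_trans ?_ (kr_tv hh hq hqi)
  apply mul_le_mul_of_nonneg_left _ (by positivity)
  refine (abs_sum_le_sum_abs _ _).trans ?_
  refine sum_le_sum fun z _ => ?_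
  rw [abs_mul]
  apply mul_le_of_le_one_right (abs_nonneg _)
  rw [abs_of_nonneg (hβ z).1]
  exact (hβ z).2

variable {Ω : Type*} [Fintype Ω]

/-- (W3) -/
theorem wg_three {w : Ω → ℝ} (hw : IsProb w) {β : Ω → X → ℝ} {r h e : ℝ} (hr : 0 < r) (hh : 0 < h)
    (he : 0 ≤ e) (hup : ∀ x y, Ex w (fun T => |β T x - β T y|) ≤ dist x y / r) {q i : ℕ} {x y : X}
    (hq : dist x y ≤ q * h) (hqi : q ≤ 2 ^ i) (hte : dist x y ≤ e * (h * 2 ^ i)) :
    Ex w (fun T => |wg r h i (β T) x - wg r h i (β T) y|) ≤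
      2 * (h * (1 + e)) / Real.log 2 * Gw h q x y i := by
  have hH := Hs_pos i
  have hl2 : 0 < Real.log 2 := Real.log_pos (by norm_num)
  have h1 : ∀ T, |wg r h i (β T) x - wg r h i (β T) y| ≤
      (r / Hs i) * ∑ m ∈ Ico (2 ^ i : ℕ) (2 ^ (i + 1)), (1 / (m : ℝ)) *
        ∑ z, |unif x (h * m) z - unif y (h * m) z| * |β T z - β T x| := by
    intro T
    rw [wg_sub]
    have h2 : ∑ z, (kr h i x z - kr h i y z) * β T z =
        ∑ z, (kr h i x z - kr h i y z) * (β T z - β T x) := by
      have h3 : ∑ z, (kr h i x z - kr h i y z) * β T x = 0 := by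
        rw [← sum_mul, sum_sub_distrib, sum_kr hh, sum_kr hh]; ring
      have h4 : ∑ z, (kr h i x z - kr h i y z) * (β T z - β T x) =
          ∑ z, (kr h i x z - kr h i y z) * β T z -
          ∑ z, (kr h i x z - kr h i y z) * β T x := by
        rw [← sum_sub_distrib]; exact sum_congr rfl fun z _ => by ring
      rw [h4, h3, sub_zero]
    have h5 : ∑ z, (kr h i x z - kr h i y z) * (β T z - β T x) =
        (1 / Hs i) * ∑ m ∈ Ico (2 ^ i : ℕ) (2 ^ (i + 1)), (1 / (m : ℝ)) *
        ∑ z, (unif x (h * m) z - unif y (h * m) z) * (β T z - β T x) := by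
      have h6 : ∀ z, (kr h i x z - kr h i y z) * (β T z - β T x) = (1 / Hs i) *
          ∑ m ∈ Ico (2 ^ i : ℕ) (2 ^ (i + 1)), (1 / (m : ℝ)) *
            ((unif x (h * m) z - unif y (h * m) z) * (β T z - β T x)) := by
        intro z
        unfold kr
        rw [← mul_sub, ← sum_sub_distrib, mul_assoc, sum_mul]
        congr 1
        exact sum_congr rfl fun m _ => by ring
      rw [sum_congr rfl fun z _ => h6 z, ← mul_sum, sum_comm]
      congr 1
      exact sum_congr rfl fun m _ => by rw [mul_sum]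
    rw [h2, h5, abs_mul, abs_of_pos hr, abs_mul, abs_of_nonneg (by positivity : (0:ℝ) ≤ 1 / Hs i)]
    have h7 : |∑ m ∈ Ico (2 ^ i : ℕ) (2 ^ (i + 1)), (1 / (m : ℝ)) *
        ∑ z, (unif x (h * m) z - unif y (h * m) z) * (β T z - β T x)| ≤
        ∑ m ∈ Ico (2 ^ i : ℕ) (2 ^ (i + 1)), (1 / (m : ℝ)) *
        ∑ z, |unif x (h * m) z - unif y (h * m) z| * |β T z - β T x| := by
      refine (abs_sum_le_sum_abs _ _).trans (sum_le_sum fun m _ => ?_)
      rw [abs_mul, abs_of_nonneg (by positivity : (0:ℝ) ≤ 1 / (m : ℝ))]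
      apply mul_le_mul_of_nonneg_left _ (by positivity)
      refine (abs_sum_le_sum_abs _ _).trans (le_of_eq ?_)
      exact sum_congr rfl fun z _ => abs_mul _ _
    calc r * (1 / Hs i * |∑ m ∈ Ico (2 ^ i : ℕ) (2 ^ (i + 1)), (1 / (m : ℝ)) *
        ∑ z, (unif x (h * m) z - unif y (h * m) z) * (β T z - β T x)|)
        ≤ r * (1 / Hs i * ∑ m ∈ Ico (2 ^ i : ℕ) (2 ^ (i + 1)), (1 / (m : ℝ)) *
        ∑ z, |unif x (h * m) z - unif y (h * m) z| * |β T z - β T x|) :=
          mul_le_mul_of_nonneg_left (mul_le_mul_of_nonneg_left h7 (by positivity)) hr.le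
      _ = _ := by ring
  refine (Ex_mono hw h1).trans ?_
  rw [Ex_mul_left, Ex_sum]
  have h8 : ∀ m ∈ Ico (2 ^ i : ℕ) (2 ^ (i + 1)), Ex w (fun T => (1 / (m : ℝ)) *
        ∑ z, |unif x (h * m) z - unif y (h * m) z| * |β T z - β T x|) ≤
      (2 * (h * (1 + e)) / r) * (Mx x y (h * m) - Mx x y (h * ((m - q : ℕ) : ℝ))) := by
    intro m hm
    have hm1 := (mem_Ico.1 hm).1
    have hm0 : 0 < m := lt_of_lt_of_le (by positivity) hm1
    have hmR : (0 : ℝ) < m := by exact_mod_cast hm0
    have hm2 : (2 : ℝ) ^ i ≤ m := by exact_mod_cast hm1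
    have hs := tv_step hh (x := x) (y := y) hq (hqi.trans hm1)
    rw [Ex_mul_left, Ex_sum]
    have h9 : ∀ z, Ex w (fun T => |unif x (h * m) z - unif y (h * m) z| * |β T z - β T x|) ≤
        ((h * m + dist x y) / r) * |unif x (h * m) z - unif y (h * m) z| := by
      intro z
      rw [Ex_mul_left]
      by_cases hz : dist x z ≤ h * m + dist x y
      · have h10 : Ex w (fun T => |β T z - β T x|) ≤ (h * m + dist x y) / r := by
          refine (hup z x).trans ?_
          rw [dist_comm z x]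
          exact div_le_div_of_nonneg_right hz hr.le
        calc |unif x (h * m) z - unif y (h * m) z| * Ex w (fun T => |β T z - β T x|)
            ≤ |unif x (h * m) z - unif y (h * m) z| * ((h * m + dist x y) / r) :=
              mul_le_mul_of_nonneg_left h10 (abs_nonneg _)
          _ = _ := by ring
      · push Not at hz
        have h11 : unif x (h * m) z = 0 := by
          unfold unif
          rw [if_neg]
          push Not
          have := dist_nonneg (x := x) (y := y)
          linarith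
        have h12 : unif y (h * m) z = 0 := by
          unfold unif
          rw [if_neg]
          push Not
          have := dist_triangle x y z
          linarith
        rw [h11, h12]
        simp
    have h13 : ∑ z, Ex w (fun T => |unif x (h * m) z - unif y (h * m) z| * |β T z - β T x|) ≤
        ((h * m + dist x y) / r) * (2 * (Mx x y (h * m) - Mx x y (h * ((m - q : ℕ) : ℝ)))) := by
      refine (sum_le_sum fun z _ => h9 z).trans ?_
      rw [← mul_sum]
      exact mul_le_mul_of_nonneg_left hs (by positivity)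
    have hD := Gw_term_nonneg hh q x y m
    have h14 : (h * m + dist x y) / r ≤ m * (h * (1 + e)) / r := by
      apply div_le_div_of_nonneg_right _ hr.le
      have h15 : e * (h * 2 ^ i) ≤ e * (h * m) :=
        mul_le_mul_of_nonneg_left (mul_le_mul_of_nonneg_left hm2 hh.le) he
      nlinarith
    calc (1 / (m : ℝ)) * ∑ z, Ex w (fun T => |unif x (h * m) z - unif y (h * m) z| *
          |β T z - β T x|)
        ≤ (1 / (m : ℝ)) * (((h * m + dist x y) / r) *
          (2 * (Mx x y (h * m) - Mx x y (h * ((m - q : ℕ) : ℝ))))) :=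
          mul_le_mul_of_nonneg_left h13 (by positivity)
      _ ≤ (1 / (m : ℝ)) * ((m * (h * (1 + e)) / r) *
          (2 * (Mx x y (h * m) - Mx x y (h * ((m - q : ℕ) : ℝ))))) :=
          mul_le_mul_of_nonneg_left (mul_le_mul_of_nonneg_right h14 (by positivity)) (by positivity)
      _ = _ := by field_simp
  have h16 : ∑ m ∈ Ico (2 ^ i : ℕ) (2 ^ (i + 1)), Ex w (fun T => (1 / (m : ℝ)) *
        ∑ z, |unif x (h * m) z - unif y (h * m) z| * |β T z - β T x|) ≤
      (2 * (h * (1 + e)) / r) * Gw h q x y i := by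
    refine (sum_le_sum h8).trans (le_of_eq ?_)
    rw [← mul_sum]; rfl
  have hG := Gw_nonneg hh q x y i
  calc r / Hs i * ∑ m ∈ Ico (2 ^ i : ℕ) (2 ^ (i + 1)), Ex w (fun T => (1 / (m : ℝ)) *
        ∑ z, |unif x (h * m) z - unif y (h * m) z| * |β T z - β T x|)
      ≤ r / Hs i * ((2 * (h * (1 + e)) / r) * Gw h q x y i) :=
        mul_le_mul_of_nonneg_left h16 (by positivity)
    _ = 1 / Hs i * (2 * (h * (1 + e)) * Gw h q x y i) := by field_simp
    _ ≤ 1 / Real.log 2 * (2 * (h * (1 + e)) * Gw h q x y i) := by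
        apply mul_le_mul_of_nonneg_right _ (by positivity)
        exact one_div_le_one_div_of_le hl2 (Hs_ge i)
    _ = _ := by ring

/-- distance of the smoothed function to the original -/
theorem wg_near {w : Ω → ℝ} (hw : IsProb w) {β : Ω → X → ℝ} {r h : ℝ} (hr : 0 < r) (hh : 0 < h)
    (i : ℕ) (hup : ∀ x y, Ex w (fun T => |β T x - β T y|) ≤ dist x y / r) (x : X) :
    Ex w (fun T => |wg r h i (β T) x - r * β T x|) ≤ 2 * (h * 2 ^ i) := by
  have h1 : ∀ T, |wg r h i (β T) x - r * β T x| ≤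
      ∑ z, (r * kr h i x z) * |β T z - β T x| := by
    intro T
    have h2 : wg r h i (β T) x - r * β T x = ∑ z, r * (kr h i x z * (β T z - β T x)) := by
      unfold wg
      have h3 : ∑ z, kr h i x z * (β T z - β T x) = ∑ z, kr h i x z * β T z - β T x := by
        have h4 : ∑ z, kr h i x z * (β T z - β T x) =
            ∑ z, kr h i x z * β T z - (∑ z, kr h i x z) * β T x := by
          rw [sum_mul, ← sum_sub_distrib]; exact sum_congr rfl fun z _ => by ring
        rw [h4, sum_kr hh, one_mul]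
      rw [← mul_sum, h3]; ring
    rw [h2]
    refine (abs_sum_le_sum_abs _ _).trans (le_of_eq ?_)
    refine sum_congr rfl fun z _ => ?_
    rw [abs_mul, abs_mul, abs_of_pos hr, abs_of_nonneg (kr_nonneg h i x z)]; ring
  refine (Ex_mono hw h1).trans ?_
  rw [Ex_sum]
  have h6 : ∀ z, Ex w (fun T => (r * kr h i x z) * |β T z - β T x|) ≤
      2 * (h * 2 ^ i) * kr h i x z := by
    intro z
    rw [Ex_mul_left]
    by_cases hz : dist x z ≤ 2 * (h * 2 ^ i)
    · have h7 : Ex w (fun T => |β T z - β T x|) ≤ 2 * (h * 2 ^ i) / r := by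
        refine (hup z x).trans ?_
        rw [dist_comm z x]
        exact div_le_div_of_nonneg_right hz hr.le
      calc r * kr h i x z * Ex w (fun T => |β T z - β T x|)
          ≤ r * kr h i x z * (2 * (h * 2 ^ i) / r) :=
            mul_le_mul_of_nonneg_left h7 (mul_nonneg hr.le (kr_nonneg _ _ _ _))
        _ = 2 * (h * 2 ^ i) * kr h i x z := by field_simp
    · push Not at hz
      rw [kr_support hh hz.le]
      simp
  refine (sum_le_sum fun z _ => h6 z).trans ?_
  rw [← mul_sum, sum_kr hh, mul_one]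

/-- (W4) -/
theorem wg_four {w : Ω → ℝ} (hw : IsProb w) {β : Ω → X → ℝ} {r h : ℝ} (hr : 0 < r) (hh : 0 < h)
    (i : ℕ) (hup : ∀ x y, Ex w (fun T => |β T x - β T y|) ≤ dist x y / r) (x y : X) :
    Ex w (fun T => |wg r h i (β T) x - wg r h i (β T) y|) ≤ dist x y + 4 * (h * 2 ^ i) := by
  have h1 : ∀ T, |wg r h i (β T) x - wg r h i (β T) y| ≤
      |wg r h i (β T) x - r * β T x| + (r * |β T x - β T y| +
        |wg r h i (β T) y - r * β T y|) := by
    intro T
    have h2 : wg r h i (β T) x - wg r h i (β T) y = (wg r h i (β T) x - r * β T x) +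
      (r * (β T x - β T y) - (wg r h i (β T) y - r * β T y)) := by ring
    rw [h2]
    refine (abs_add_le _ _).trans ?_
    have h3 := abs_sub (r * (β T x - β T y)) (wg r h i (β T) y - r * β T y)
    rw [abs_mul, abs_of_pos hr] at h3
    linarith
  refine (Ex_mono hw h1).trans ?_
  rw [Ex_add, Ex_add, Ex_mul_left]
  have h4 := wg_near hw hr hh i hup x
  have h5 := wg_near hw hr hh i hup y
  have h6 : r * Ex w (fun T => |β T x - β T y|) ≤ dist x y := by
    have := mul_le_mul_of_nonneg_left (hup x y) hr.le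
    rwa [mul_div_cancel₀ _ hr.ne'] at this
  linarith

/-- (W5) -/
theorem wg_five {w : Ω → ℝ} (hw : IsProb w) {β : Ω → X → ℝ} {r h e : ℝ} (hr : 0 < r) (hh : 0 < h)
    (i : ℕ) (hup : ∀ x y, Ex w (fun T => |β T x - β T y|) ≤ dist x y / r)
    (hlo : ∀ x y, (1 - 2 * e) * (dist x y / r) - 2 * (dist x y / r) ^ 2 ≤
      Ex w (fun T => |β T x - β T y|)) (x y : X) :
    (1 - 2 * e) * dist x y - 2 * dist x y ^ 2 / r - 4 * (h * 2 ^ i) ≤
      Ex w (fun T => |wg r h i (β T) x - wg r h i (β T) y|) := by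
  have h1 : ∀ T, r * |β T x - β T y| - (|wg r h i (β T) x - r * β T x| +
        |wg r h i (β T) y - r * β T y|) ≤ |wg r h i (β T) x - wg r h i (β T) y| := by
    intro T
    have h2 : r * (β T x - β T y) = (wg r h i (β T) x - wg r h i (β T) y) +
      ((wg r h i (β T) y - r * β T y) - (wg r h i (β T) x - r * β T x)) := by ring
    have h3 : r * |β T x - β T y| = |r * (β T x - β T y)| := by
      rw [abs_mul, abs_of_pos hr]
    rw [h3, h2]
    have h4 := abs_add_le (wg r h i (β T) x - wg r h i (β T) y)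
      ((wg r h i (β T) y - r * β T y) - (wg r h i (β T) x - r * β T x))
    have h5 := abs_sub (wg r h i (β T) y - r * β T y) (wg r h i (β T) x - r * β T x)
    linarith
  refine le_trans ?_ (Ex_mono hw h1)
  rw [Ex_sub, Ex_add, Ex_mul_left]
  have h4 := wg_near hw hr hh i hup x
  have h5 := wg_near hw hr hh i hup y
  have h6 : (1 - 2 * e) * dist x y - 2 * dist x y ^ 2 / r ≤
      r * Ex w (fun T => |β T x - β T y|) := by
    have h7 := mul_le_mul_of_nonneg_left (hlo x y) hr.le
    have h9 : r * ((1 - 2 * e) * (dist x y / r) - 2 * (dist x y / r) ^ 2) =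
        (1 - 2 * e) * dist x y - 2 * dist x y ^ 2 / r := by field_simp
    linarith
  linarith

end Pool.Agent.Lib.MP_716709_gt.Sharp93
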