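import Pool.Agent.Lib.MP_716709_gt.Sharp93.Sampling
import Pool.Agent.Lib.MP_716709_gt.Upper.Wrap

set_option autoImplicit false

namespace Pool.Agent.Lib.MP_716709_gt.Sharp93

open Finset Pool.Agent.Lib.MP_716709_gt Pool.Agent.Lib.MP_716709_gt.Upper

theorem param_bound {e ε : ℝ} (he0 : 0 < e) (he1 : e ≤ 1 / 16) (hε : 48 * e ≤ ε) :
    2 * (1 + e) ^ 3 ≤ (2 + ε) * ((1 - e) * (1 - 7 * e)) := by
  have h1 : 0 ≤ (1 - e) * (1 - 7 * e) := mul_nonneg (by linarith) (by linarith)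
  have h2 : (2 + 48 * e) * ((1 - e) * (1 - 7 * e)) ≤ (2 + ε) * ((1 - e) * (1 - 7 * e)) :=
    mul_le_mul_of_nonneg_right (by linarith) h1
  refine le_trans ?_ h2
  have h3 : 0 ≤ e * (26 - 376 * e + 334 * e ^ 2) := by
    apply mul_nonneg he0.le
    nlinarith [sq_nonneg e]
  nlinarith

theorem wrap_sharp {ε e : ℝ} {L₀ : ℕ} (he0 : 0 < e) (he1 : e ≤ 1 / 16) (hε : 48 * e ≤ ε)
    (H : ∀ n : ℕ, ∀ M : Finset L1, M.card ≤ n → ∀ J : ℕ, 0 < J →
    ∃ (Ω : Type) (_ : Fintype Ω) (p : Ω → ℝ) (ψ : Ω → M → ℝ), IsProb p ∧ ∀ x y : M,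
      (∀ ω, |ψ ω x - ψ ω y| ≤
        2 ^ J * (2 * (1 + e) / Real.log 2 * Real.log n + 2 * 2 ^ L₀) * dist x y) ∧
      ((1 - 2 * e) * J - 12) / J * dist x y ≤ Ex p (fun ω => |ψ ω x - ψ ω y|) ∧
      Ex p (fun ω => |ψ ω x - ψ ω y|) ≤
        (J + L₀ + 8 * 2 ^ L₀ + 2 + 2 * (1 + e) ^ 2 / Real.log 2 * Real.log n) / J * dist x y) :
    ∃ C : ℝ, 0 < C ∧ ∀ (n : ℕ) (D : ℝ), 2 ≤ n → 2 ≤ D →
      K n D ≤ ((⌊C * (n : ℝ) ^ ((2 + ε) / (D - 1)) * Real.log n ^ 2⌋₊ : ℕ) : ℕ∞) := by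
  have hl2 : (0.6931471803 : ℝ) < Real.log 2 := Real.log_two_gt_d9
  have hl2' : Real.log 2 < (0.6931471808 : ℝ) := Real.log_two_lt_d9
  have hl0 : 0 < Real.log 2 := by linarith
  set c₁ : ℝ := L₀ + 8 * 2 ^ L₀ + 2 with hc₁
  have hc₁0 : 0 < c₁ := by rw [hc₁]; positivity
  set C₂ : ℝ := Real.exp ((97 + 4 * c₁) * Real.log 2) with hC₂
  have hC₂0 : 0 < C₂ := Real.exp_pos _
  have hc0 : (0 : ℝ) < 6 + 4 * 2 ^ L₀ := by positivity
  refine ⟨32 / e ^ 2 * (6 + 4 * 2 ^ L₀) * C₂ + 4, by positivity, ?_⟩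
  intro n D hn hD
  have hn2 : (2 : ℝ) ≤ n := by exact_mod_cast hn
  have hn0 : (0 : ℝ) < n := by linarith
  have hD1 : 1 ≤ D - 1 := by linarith
  have hD0 : (0 : ℝ) < D := by linarith
  have hε0 : 0 < ε := by linarith
  set Lg := Real.log n with hLg
  have hLg2 : Real.log 2 ≤ Lg := Real.log_le_log (by norm_num) hn2
  have hL : (0.69 : ℝ) ≤ Lg := by linarith
  have hLg0 : 0 < Lg := by linarith
  set κ : ℝ := 2 * (1 + e) ^ 2 / Real.log 2 with hκ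
  have hκ0 : 0 < κ := by rw [hκ]; positivity
  set ρ : ℝ := (1 + e) / (1 - e) with hρ
  have h1e : 0 < 1 - e := by linarith
  have hρ0 : 0 < ρ := by rw [hρ]; apply div_pos <;> linarith
  have hρ1 : ρ ≤ 1 + 3 * e := by
    rw [hρ, div_le_iff₀ h1e]; nlinarith
  set g : ℝ := D * (1 - 2 * e) - ρ with hg
  have h7e : 0 < 1 - 7 * e := by linarith
  have hg1 : (1 - 7 * e) * (D - 1) ≤ g := by
    rw [hg]; nlinarith
  have hg2 : 1 / 2 * (D - 1) ≤ g := by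
    refine le_trans ?_ hg1
    apply mul_le_mul_of_nonneg_right _ (by linarith)
    linarith
  have hg0 : 0 < g := by linarith
  set W : ℝ := (ρ * (c₁ + κ * Lg) + 12 * D) / g with hW
  have hW0 : 0 < W := by rw [hW]; positivity
  set J : ℕ := 48 + ⌈W⌉₊ with hJ
  have hJ48 : 48 ≤ J := by omega
  have hJR : (48 : ℝ) ≤ J := by exact_mod_cast hJ48
  have hJ0 : (0 : ℝ) < J := by linarith
  have hJ1 : W ≤ J := by
    have h1 := Nat.le_ceil W
    have h2 : (J : ℝ) = 48 + (⌈W⌉₊ : ℝ) := by rw [hJ]; push_cast; ring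
    linarith
  have hJ2 : (J : ℝ) ≤ 49 + W := by
    have h1 := Nat.ceil_lt_add_one (a := W) hW0.le
    have h2 : (J : ℝ) = 48 + (⌈W⌉₊ : ℝ) := by rw [hJ]; push_cast; ring
    linarith
  set a : ℝ := ((1 - 2 * e) * J - 12) / J with ha
  have ha1 : 1 / 2 ≤ a := by
    rw [ha, le_div_iff₀ hJ0]
    nlinarith
  have ha0 : 0 < a := by linarith
  set b : ℝ := (J + L₀ + 8 * 2 ^ L₀ + 2 + κ * Lg) / J with hb
  set B₁ : ℝ := 2 ^ J * (2 * (1 + e) / Real.log 2 * Lg + 2 * 2 ^ L₀) with hB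
  have hB0 : 0 < B₁ := by rw [hB]; positivity
  have hθ0 : 0 < a / B₁ := by positivity
  set k : ℕ := ⌈16 * Lg / e ^ 2 / (a / B₁)⌉₊ with hk
  have hk0 : 0 < k := Nat.ceil_pos.2 (by positivity)
  have hk1 : 16 * Lg / e ^ 2 ≤ k * (a / B₁) := by
    have h1 := Nat.le_ceil (16 * Lg / e ^ 2 / (a / B₁))
    rwa [div_le_iff₀ hθ0] at h1
  have hk2 : (k : ℝ) ≤ 16 * Lg / e ^ 2 / (a / B₁) + 1 :=
    (Nat.ceil_lt_add_one (a := 16 * Lg / e ^ 2 / (a / B₁)) (by positivity)).le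
  -- distortion
  have hdist : ρ * (b / a) ≤ D := by
    have h0 : 0 < (1 - 2 * e) * J - 12 := by
      have h1 : 0 < a * J := by positivity
      rwa [ha, div_mul_cancel₀ _ hJ0.ne'] at h1
    have h1 : b / a = (J + c₁ + κ * Lg) / ((1 - 2 * e) * J - 12) := by
      rw [ha, hb, hc₁]
      field_simp
      ring
    rw [h1, ← mul_div_assoc, div_le_iff₀ h0]
    have h2 : ρ * (c₁ + κ * Lg) + 12 * D ≤ J * g := by
      rwa [hW, div_le_iff₀ hg0] at hJ1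
    rw [hg] at h2
    nlinarith
  have hemb : ∀ M : Finset L1, M.card ≤ n → Embeds M D k := by
    intro M hM
    obtain ⟨Ω, _, p, ψ, hp, hψ⟩ := H n M hM J (by omega)
    have h1 : Embeds M ((1 + e) / (1 - e) * (b / a)) k := by
      refine embeds_sharp hp ψ ha0 hB0 he0 (by linarith) (fun x y ω => (hψ x y).1 ω)
        (fun x y => (hψ x y).2.1) (fun x y => (hψ x y).2.2) hk0 ?_
      have h2 : (M.card : ℝ) ≤ n := by exact_mod_cast hM
      have h3 : Real.exp (-(k * (a / B₁) * (e ^ 2 / 4))) ≤ Real.exp (-(4 * Lg)) := by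
        apply Real.exp_le_exp.2
        have h5 : 16 * Lg / e ^ 2 * (e ^ 2 / 4) ≤ k * (a / B₁) * (e ^ 2 / 4) :=
          mul_le_mul_of_nonneg_right hk1 (by positivity)
        have h6 : 16 * Lg / e ^ 2 * (e ^ 2 / 4) = 4 * Lg := by field_simp; norm_num
        linarith
      have h4 : Real.exp (-(4 * Lg)) = 1 / (n : ℝ) ^ 4 := by
        have : Real.exp (4 * Lg) = (n : ℝ) ^ 4 := by
          have h5 := Real.exp_nat_mul Lg 4
          push_cast at h5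
          rw [h5, hLg, Real.exp_log hn0]
        rw [Real.exp_neg, this, one_div]
      rw [h4] at h3
      calc 2 * (M.card : ℝ) ^ 2 * Real.exp (-(k * (a / B₁) * (e ^ 2 / 4)))
          ≤ 2 * (n : ℝ) ^ 2 * (1 / (n : ℝ) ^ 4) := by
            apply mul_le_mul _ h3 (Real.exp_pos _).le (by positivity)
            apply mul_le_mul_of_nonneg_left _ (by norm_num)
            exact pow_le_pow_left₀ (Nat.cast_nonneg _) h2 2
        _ = 2 / (n : ℝ) ^ 2 := by field_simp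
        _ < 1 := by
            rw [div_lt_one (by positivity)]
            nlinarith
    exact Embeds.mono h1 hdist
  -- the dimension
  set P := (n : ℝ) ^ ((2 + ε) / (D - 1)) with hP
  have hP1 : 1 ≤ P := Real.one_le_rpow (by linarith) (by positivity)
  have h8 : (2 : ℝ) ^ J ≤ C₂ * P := by
    have h1 : (2 : ℝ) ^ J = Real.exp (J * Real.log 2) := by
      rw [Real.exp_nat_mul, Real.exp_log (by norm_num)]
    have h2 : P = Real.exp (Lg * ((2 + ε) / (D - 1))) := by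
      rw [hP, Real.rpow_def_of_pos hn0]
    rw [h1, h2, hC₂, ← Real.exp_add]
    apply Real.exp_le_exp.2
    have hW1 : W ≤ 4 * c₁ + 48 + ρ * κ * Lg / g := by
      have e1 : W = ρ * c₁ / g + ρ * κ * Lg / g + 12 * D / g := by rw [hW]; ring
      have e2 : ρ * c₁ / g ≤ 4 * c₁ := by
        rw [div_le_iff₀ hg0]
        have : ρ ≤ 2 := by linarith
        nlinarith
      have e3 : 12 * D / g ≤ 48 := by
        rw [div_le_iff₀ hg0]; linarith
      linarith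
    have hW2 : ρ * κ * Lg / g * Real.log 2 ≤ Lg * ((2 + ε) / (D - 1)) := by
      have hden : 0 < (1 - 7 * e) * (D - 1) := by
        apply mul_pos h7e; linarith
      have e1 : ρ * κ * Lg / g ≤ ρ * κ * Lg / ((1 - 7 * e) * (D - 1)) :=
        div_le_div_of_nonneg_left (by positivity) hden hg1
      have e2 : ρ * κ * Lg / ((1 - 7 * e) * (D - 1)) * Real.log 2 =
          Lg * ((2 * (1 + e) ^ 3 / ((1 - e) * (1 - 7 * e))) / (D - 1)) := by
        rw [hρ, hκ]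
        have hDne : D - 1 ≠ 0 := by linarith
        field_simp
      have e3 : 2 * (1 + e) ^ 3 / ((1 - e) * (1 - 7 * e)) ≤ 2 + ε := by
        rw [div_le_iff₀ (mul_pos h1e h7e)]
        exact param_bound he0 he1 hε
      calc ρ * κ * Lg / g * Real.log 2 ≤ ρ * κ * Lg / ((1 - 7 * e) * (D - 1)) * Real.log 2 :=
            mul_le_mul_of_nonneg_right e1 hl0.le
        _ = _ := e2
        _ ≤ Lg * ((2 + ε) / (D - 1)) := by
            apply mul_le_mul_of_nonneg_left _ hLg0.le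
            exact div_le_div_of_nonneg_right e3 (by linarith)
    have h9 : (J : ℝ) * Real.log 2 ≤ (97 + 4 * c₁ + ρ * κ * Lg / g) * Real.log 2 :=
      mul_le_mul_of_nonneg_right (by linarith) hl0.le
    nlinarith
  have hBle : B₁ ≤ C₂ * P * ((6 + 4 * 2 ^ L₀) * Lg) := by
    rw [hB]
    apply mul_le_mul h8 _ (by positivity) (by positivity)
    have e1 : 2 * (1 + e) / Real.log 2 ≤ 6 := by
      rw [div_le_iff₀ hl0]; nlinarith
    have e2 : (0 : ℝ) < 2 ^ L₀ := by positivity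
    nlinarith
  have hkbound : (k : ℝ) ≤ (32 / e ^ 2 * (6 + 4 * 2 ^ L₀) * C₂ + 4) * P * Lg ^ 2 := by
    have e1 : 16 * Lg / e ^ 2 / (a / B₁) = 16 * Lg / e ^ 2 * B₁ / a := by field_simp
    have e2 : 16 * Lg / e ^ 2 * B₁ / a ≤ 16 * Lg / e ^ 2 * B₁ / (1 / 2) :=
      div_le_div_of_nonneg_left (by positivity) (by norm_num) ha1
    have e3 : 16 * Lg / e ^ 2 * B₁ / (1 / 2) = 32 * Lg / e ^ 2 * B₁ := by ring
    have e4 : 32 * Lg / e ^ 2 * B₁ ≤ 32 * Lg / e ^ 2 * (C₂ * P * ((6 + 4 * 2 ^ L₀) * Lg)) :=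
      mul_le_mul_of_nonneg_left hBle (by positivity)
    have e5 : 32 * Lg / e ^ 2 * (C₂ * P * ((6 + 4 * 2 ^ L₀) * Lg)) =
        32 / e ^ 2 * (6 + 4 * 2 ^ L₀) * C₂ * P * Lg ^ 2 := by ring
    have e6 : 1 ≤ 4 * P * Lg ^ 2 := by
      have h1 : (0.69 : ℝ) ^ 2 ≤ Lg ^ 2 := pow_le_pow_left₀ (by norm_num) hL 2
      have h2 : (0.69 : ℝ) ^ 2 = 0.4761 := by norm_num
      nlinarith
    have e7 : (32 / e ^ 2 * (6 + 4 * 2 ^ L₀) * C₂ + 4) * P * Lg ^ 2 =
        32 / e ^ 2 * (6 + 4 * 2 ^ L₀) * C₂ * P * Lg ^ 2 + 4 * P * Lg ^ 2 := by ring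
    rw [e7]
    linarith
  have hkfl : k ≤ ⌊(32 / e ^ 2 * (6 + 4 * 2 ^ L₀) * C₂ + 4) * P * Lg ^ 2⌋₊ :=
    Nat.le_floor hkbound
  unfold K
  refine iSup_le fun M => iSup_le fun hM => ?_
  unfold dimD
  refine (iInf_le_of_le k (iInf_le _ (hemb M hM))).trans ?_
  exact_mod_cast hkfl

end Pool.Agent.Lib.MP_716709_gt.Sharp93
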